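import Pool.Agent.H46.IS.Defs

/-!
# [H46 IS APP] Approximation of directions by automorphs (40 min)

`LL_mul`, `LL_inv`, `LL_zpow`: `Aut_mul`, `Aut_inv` (the inverse of a diagonal matrix is the diagonal matrix of the inverses),
`∏` and positivity.
`approx_dir`: `Submodule.span_induction`.  `x = log a`, `a ∈ LL z`: `a ^ ⌊t⌋` (integer power), `|⌊t⌋ log (a i) - t log (a i)| ≤ |log (a i)|`,
`C = ∑ i, |log (a i)|`.  `x = 0`: `a = 1`.  Sum: the product of the two automorphs (for the same `t`), `C1 + C2`.  `r • x`: the automorph for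
`x` and `t * r`.
-/

set_option autoImplicit false

namespace Pool.Agent.H46.IS

open Matrix Pool.Agent.H89.CSD Pool.Agent.H46.RG Pool.Agent.H46.RU

variable {d : ℕ}

theorem LL_one (z : Matrix (Fin d) (Fin d) ℝ) : (1 : Fin d → ℝ) ∈ LL z := by
  refine ⟨⟨fun i => one_pos, Finset.prod_const_one⟩, ?_⟩
  have h : diagonal (1 : Fin d → ℝ) = (1 : Matrix (Fin d) (Fin d) ℝ) := Matrix.diagonal_one
  rw [h]
  exact Aut_one z

theorem LL_mul {z : Matrix (Fin d) (Fin d) ℝ} {a b : Fin d → ℝ} (ha : a ∈ LL z) (hb : b ∈ LL z) :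
    a * b ∈ LL z := by
  obtain ⟨⟨ha1, ha2⟩, ha3⟩ := ha
  obtain ⟨⟨hb1, hb2⟩, hb3⟩ := hb
  refine ⟨⟨fun i => mul_pos (ha1 i) (hb1 i), ?_⟩, ?_⟩
  · calc ∏ i, (a * b) i = (∏ i, a i) * ∏ i, b i := Finset.prod_mul_distrib
      _ = 1 := by rw [ha2, hb2, one_mul]
  · have h : diagonal (a * b) = diagonal a * diagonal b := by
      rw [Matrix.diagonal_mul_diagonal]
      rfl
    rw [h]
    exact Aut_mul ha3 hb3

theorem LL_inv {z : Matrix (Fin d) (Fin d) ℝ} (hz : z.det ≠ 0) {a : Fin d → ℝ} (ha : a ∈ LL z) :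
    a⁻¹ ∈ LL z := by
  obtain ⟨⟨ha1, ha2⟩, ha3⟩ := ha
  refine ⟨⟨fun i => inv_pos.2 (ha1 i), ?_⟩, ?_⟩
  · calc ∏ i, a⁻¹ i = (∏ i, a i)⁻¹ := by
          rw [← Finset.prod_inv_distrib]
          rfl
      _ = 1 := by rw [ha2, inv_one]
  · have h : diagonal a⁻¹ = (diagonal a)⁻¹ := by
      symm
      apply Matrix.inv_eq_right_inv
      rw [Matrix.diagonal_mul_diagonal, ← Matrix.diagonal_one]
      congr 1
      ext i
      exact mul_inv_cancel₀ (ha1 i).ne'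
    rw [h]
    exact Aut_inv hz ha3

theorem LL_npow {z : Matrix (Fin d) (Fin d) ℝ} {a : Fin d → ℝ} (ha : a ∈ LL z)
    (k : ℕ) : a ^ k ∈ LL z := by
  induction k with
  | zero => rw [pow_zero]; exact LL_one z
  | succ k ih => rw [pow_succ]; exact LL_mul ih ha

theorem LL_zpow {z : Matrix (Fin d) (Fin d) ℝ} (hz : z.det ≠ 0) {a : Fin d → ℝ} (ha : a ∈ LL z)
    (k : ℤ) : a ^ k ∈ LL z := by
  obtain ⟨n, rfl | rfl⟩ := Int.eq_nat_or_neg k
  · rw [zpow_natCast]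
    exact LL_npow ha n
  · rw [_root_.zpow_neg, zpow_natCast]
    exact LL_inv hz (LL_npow ha n)

theorem approx_dir {z : Matrix (Fin d) (Fin d) ℝ} (hz : z.det ≠ 0) {x : Fin d → ℝ}
    (hx : x ∈ Submodule.span ℝ (LG z)) :
    ∃ C : ℝ, ∀ t : ℝ, ∃ a ∈ LL z, ∀ i, |Real.log (a i) - t * x i| ≤ C := by
  induction hx using Submodule.span_induction with
  | mem x hx =>
    obtain ⟨a, ha1, ha2, rfl⟩ := hx
    refine ⟨∑ i, |Real.log (a i)|, fun t => ⟨a ^ ⌊t⌋, LL_zpow hz ⟨ha1, ha2⟩ _, fun i => ?_⟩⟩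
    rw [Pi.pow_apply, Real.log_zpow]
    have h1 : (⌊t⌋ : ℝ) * Real.log (a i) - t * Real.log (a i) =
        -(Int.fract t) * Real.log (a i) := by
      rw [← Int.self_sub_floor]
      ring
    rw [h1, abs_mul, abs_neg, abs_of_nonneg (Int.fract_nonneg t)]
    calc Int.fract t * |Real.log (a i)| ≤ 1 * |Real.log (a i)| :=
          mul_le_mul_of_nonneg_right (Int.fract_lt_one t).le (abs_nonneg _)
      _ = |Real.log (a i)| := one_mul _
      _ ≤ ∑ i, |Real.log (a i)| :=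
          Finset.single_le_sum (f := fun i => |Real.log (a i)|) (fun _ _ => abs_nonneg _)
            (Finset.mem_univ i)
  | zero =>
    refine ⟨0, fun t => ⟨1, LL_one z, fun i => ?_⟩⟩
    simp
  | add x y _ _ hx hy =>
    obtain ⟨C1, h1⟩ := hx
    obtain ⟨C2, h2⟩ := hy
    refine ⟨C1 + C2, fun t => ?_⟩
    obtain ⟨a, ha, ha'⟩ := h1 t
    obtain ⟨b, hb, hb'⟩ := h2 t
    refine ⟨a * b, LL_mul ha hb, fun i => ?_⟩
    rw [Pi.mul_apply, Real.log_mul (ha.1.1 i).ne' (hb.1.1 i).ne', Pi.add_apply]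
    have h3 : Real.log (a i) + Real.log (b i) - t * (x i + y i) =
        (Real.log (a i) - t * x i) + (Real.log (b i) - t * y i) := by ring
    rw [h3]
    exact (abs_add_le _ _).trans (add_le_add (ha' i) (hb' i))
  | smul r x _ hx =>
    obtain ⟨C, hC⟩ := hx
    refine ⟨C, fun t => ?_⟩
    obtain ⟨a, ha, ha'⟩ := hC (t * r)
    refine ⟨a, ha, fun i => ?_⟩
    have h := ha' i
    rwa [Pi.smul_apply, smul_eq_mul, ← mul_assoc]

end Pool.Agent.H46.IS
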