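import Pool.Agent.H46.IS.Cns
import Pool.Agent.H46.RU.Fin

/-!
# The classes of rows of the lattices in the closed orbit (consequences of Theorem S)
-/

set_option autoImplicit false

namespace Pool.Agent.H46.IS

open Matrix Filter Topology Pool.Agent.H89.CSD Pool.Agent.H46.RG Pool.Agent.H46.RU

variable {d : ℕ}

theorem card_levels {b : Fin d → ℝ} {n : ℕ}
    (h : ∀ i, (Finset.univ.filter fun j => b j = b i).card = n) :
    (Finset.univ.image b).card * n = d := by
  classical
  have h1 := Finset.card_eq_sum_card_image b (Finset.univ : Finset (Fin d))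
  rw [Finset.card_univ, Fintype.card_fin] at h1
  rw [Finset.sum_congr rfl (g := fun _ => n), Finset.sum_const, smul_eq_mul] at h1
  · exact h1.symm
  · intro r hr
    obtain ⟨i, _, rfl⟩ := Finset.mem_image.1 hr
    exact h i

theorem exists_Sz (z : Matrix (Fin d) (Fin d) ℝ) : ∃ b, Sz z b := by
  obtain ⟨b, h1, h2, h3⟩ := sep_one z
  exact ⟨b, ⟨h1, h2⟩, fun a ha => h3 a ha.1 ha.2⟩

theorem classes_const (hd : 3 ≤ d) {g : Matrix (Fin d) (Fin d) ℝ} (hg : g.det ≠ 0) {c : ℝ}
    (hc : 0 < c) (hp : Pos c g) {b : Fin d → ℝ} (hb : Sz g b)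
    (hcase : Odd d ∨ 2 ≤ (Finset.univ.image b).card) : b ∈ DA (Om g) ∧ Sep (Om g) b := by
  classical
  refine ⟨⟨hb.1.1, fun z hz => (LL_mono hg hz hb.1).2⟩, ?_⟩
  intro z hz a ha haz i j hij
  obtain ⟨bz, hbz⟩ := exists_Sz z
  apply hbz.2 a ⟨ha, haz⟩
  by_cases h3 : 3 ≤ (Finset.univ.image bz).card
  · exact hb.2 bz (LL_eq hg hc hp hz hbz h3) i j hij
  · by_contra hne
    have hbi : ∀ k, bz k = bz i ∨ bz k = bz j := by
      intro k
      by_contra hk
      push Not at hk
      apply h3
      have hsub : ({bz i, bz j, bz k} : Finset ℝ) ⊆ Finset.univ.image bz := by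
        intro r hr
        simp only [Finset.mem_insert, Finset.mem_singleton] at hr
        rcases hr with rfl | rfl | rfl <;> exact Finset.mem_image_of_mem _ (Finset.mem_univ _)
      have hcard : ({bz i, bz j, bz k} : Finset ℝ).card = 3 := by
        rw [Finset.card_insert_of_notMem, Finset.card_insert_of_notMem, Finset.card_singleton]
        · rw [Finset.mem_singleton]
          exact fun h => hk.2 h.symm
        · rw [Finset.mem_insert, Finset.mem_singleton, not_or]
          exact ⟨hne, fun h => hk.1 h.symm⟩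
      rw [← hcard]
      exact Finset.card_le_card hsub
    have hbc : ∀ k, b k = b i := by
      intro k
      rcases hbi k with h | h
      · exact hbz.2 b (LL_mono hg hz hb.1) k i h
      · rw [hbz.2 b (LL_mono hg hz hb.1) k j h, hij]
    rcases hcase with hodd | h2
    · obtain ⟨n, hn⟩ := level_card (Om_det_ne hg hz) hc (Om_pos hg hc hp hz) hbz.1.2
      have h4 := card_levels hn
      have h5 : (Finset.univ.image bz).card = 2 := by
        have hge : 2 ≤ (Finset.univ.image bz).card := by
          have hsub : ({bz i, bz j} : Finset ℝ) ⊆ Finset.univ.image bz := by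
            intro r hr
            simp only [Finset.mem_insert, Finset.mem_singleton] at hr
            rcases hr with rfl | rfl <;> exact Finset.mem_image_of_mem _ (Finset.mem_univ _)
          have hcard : ({bz i, bz j} : Finset ℝ).card = 2 := Finset.card_pair hne
          rw [← hcard]
          exact Finset.card_le_card hsub
        omega
      rw [h5] at h4
      rw [← h4] at hodd
      exact (Nat.not_odd_iff_even.2 (even_two_mul n)) hodd
    · have h6 : Finset.univ.image b ⊆ {b i} := by
        intro r hr
        obtain ⟨k, _, rfl⟩ := Finset.mem_image.1 hr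
        rw [Finset.mem_singleton]
        exact hbc k
      have h7 := Finset.card_le_card h6
      rw [Finset.card_singleton] at h7
      omega

theorem two_classes {g : Matrix (Fin d) (Fin d) ℝ} (hg : g.det ≠ 0) {c : ℝ}
    (hc : 0 < c) (hp : Pos c g) {b : Fin d → ℝ} (hb : Sz g b)
    (h1 : (Finset.univ.image b).card ≤ 1) {z : Matrix (Fin d) (Fin d) ℝ} (hz : z ∈ Om g)
    {bz : Fin d → ℝ} (hbz : Sz z bz) : (Finset.univ.image bz).card ≤ 2 := by
  classical
  by_contra h
  have h3 : 3 ≤ (Finset.univ.image bz).card := by omega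
  have h4 := hb.2 bz (LL_eq hg hc hp hz hbz h3)
  have h5 : ∀ i j, b i = b j := fun i j =>
    Finset.card_le_one.1 h1 (b i) (Finset.mem_image_of_mem _ (Finset.mem_univ _)) (b j)
      (Finset.mem_image_of_mem _ (Finset.mem_univ _))
  have h6 : (Finset.univ.image bz).card ≤ 1 := by
    rw [Finset.card_le_one]
    intro r hr s hs
    obtain ⟨i, _, rfl⟩ := Finset.mem_image.1 hr
    obtain ⟨j, _, rfl⟩ := Finset.mem_image.1 hs
    exact h4 i j (h5 i j)
  omega

end Pool.Agent.H46.IS
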