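import Pool.Agent.H46.IS.Isn

/-!
# [H46 IS CNS] The automorphs of the lattices in the closed orbit (60 min)

`near` (approximation): `z ∈ Om g`: `z = lim x n`, `x n = diag (α n) g γ n` (`mem_closure_iff_seq_limit`, the space of matrices is first countable),
`|det (x n)| → |det z| = |det g| ≠ 0`, so for large `n` `det (x n) ≠ 0` and all `α n i ≠ 0`; drop the other `n`.  Let
`s n = (|det g| / |det (x n)|) ^ (1 / d) → 1` (real power; for `d = 0` everything is trivial) and `y n = s n • x n = diag (s n * α n i) g γ n`: `y n → z`,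
`|det (y n)| = |det g|`, so `y n ∈ Om g`.  For every `a` `diagonal a ∈ Aut (y n)` iff `diagonal a ∈ Aut g`: `Aut_diag` with `s n * α n i ≠ 0` (diagonal
matrices commute), `Aut_im` (`exists_unit` for `γ n`), and the same with the inverses.
`LL_mono`: `a ∈ LL g`: `diagonal a ∈ Aut (y n)` for all `n`, `aut_closed` (RU/Clo) with the constant sequence `diagonal a`.
`LL_eq`: `isolated` for `y n`: `diagonal b ∈ Aut (y n)` for some `n`, so `diagonal b ∈ Aut g`.
-/

set_option autoImplicit false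

namespace Pool.Agent.H46.IS

open Matrix Filter Topology Pool.Agent.H89.CSD Pool.Agent.H46.RG Pool.Agent.H46.RU

variable {d : ℕ}

private theorem diag_aut_iff {g : Matrix (Fin d) (Fin d) ℝ} {β : Fin d → ℝ} (hβ : ∀ i, β i ≠ 0)
    (U : (Matrix (Fin d) (Fin d) ℤ)ˣ) (a : Fin d → ℝ) :
    diagonal a ∈ Aut (diagonal β * g * im (U : Matrix (Fin d) (Fin d) ℤ)) ↔ diagonal a ∈ Aut g := by
  have hcomm : ∀ c : Fin d → ℝ, (∀ i, c i ≠ 0) →
      diagonal c * diagonal a * diagonal (fun i => (c i)⁻¹) = diagonal a := by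
    intro c hc
    rw [diagonal_mul_diagonal, diagonal_mul_diagonal]
    congr 1
    ext i
    rw [mul_comm (c i) (a i), mul_assoc, mul_inv_cancel₀ (hc i), mul_one]
  constructor
  · intro h
    have h1 := Aut_im h U⁻¹
    rw [Matrix.mul_assoc, im_mul_inv, Matrix.mul_one] at h1
    have h2 := Aut_diag h1 (a := fun i => (β i)⁻¹) (fun i => inv_ne_zero (hβ i))
    rw [hcomm _ (fun i => inv_ne_zero (hβ i)), ← Matrix.mul_assoc, diagonal_mul_diagonal] at h2
    have h3 : (fun i => (β i)⁻¹ * β i) = fun _ => (1 : ℝ) := by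
      ext i
      exact inv_mul_cancel₀ (hβ i)
    rw [h3, diagonal_one, Matrix.one_mul] at h2
    exact h2
  · intro h
    have h2 := Aut_diag h (a := β) hβ
    rw [hcomm _ hβ] at h2
    exact Aut_im h2 U

theorem near {g : Matrix (Fin d) (Fin d) ℝ} (hg : g.det ≠ 0)
    {z : Matrix (Fin d) (Fin d) ℝ} (hz : z ∈ Om g) :
    ∃ y : ℕ → Matrix (Fin d) (Fin d) ℝ, (∀ n, y n ∈ Om g) ∧ Tendsto y atTop (𝓝 z) ∧
      ∀ n, ∀ a : Fin d → ℝ, diagonal a ∈ Aut (y n) ↔ diagonal a ∈ Aut g := by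
  obtain ⟨x, hx, hlim⟩ := mem_closure_iff_seq_limit.1 hz.1
  have hdet : Tendsto (fun n => (x n).det) atTop (𝓝 z.det) :=
    (continuous_det'.tendsto z).comp hlim
  have hz0 := Om_det_ne hg hz
  obtain ⟨N, hN⟩ := eventually_atTop.1 (hdet.eventually_ne hz0)
  have hlim' : Tendsto (fun n => x (n + N)) atTop (𝓝 z) := hlim.comp (tendsto_add_atTop_nat N)
  have hdet' : Tendsto (fun n => (x (n + N)).det) atTop (𝓝 z.det) :=
    hdet.comp (tendsto_add_atTop_nat N)
  have hne : ∀ n, (x (n + N)).det ≠ 0 := fun n => hN _ (by omega)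
  have hg0 : 0 < |g.det| := abs_pos.2 hg
  set r : ℕ → ℝ := fun n => |g.det| / |(x (n + N)).det| with hr
  have hr0 : ∀ n, 0 < r n := fun n => div_pos hg0 (abs_pos.2 (hne n))
  set s : ℕ → ℝ := fun n => (r n) ^ (1 / (d : ℝ)) with hs
  have hs0 : ∀ n, 0 < s n := fun n => Real.rpow_pos_of_pos (hr0 n) _
  have hr1 : Tendsto r atTop (𝓝 1) := by
    have h1 : Tendsto r atTop (𝓝 (|g.det| / |z.det|)) :=
      tendsto_const_nhds.div hdet'.abs (abs_ne_zero.2 hz0)
    rw [hz.2, div_self hg0.ne'] at h1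
    exact h1
  have hs1 : Tendsto s atTop (𝓝 1) := by
    have h1 := hr1.rpow_const (p := 1 / (d : ℝ)) (Or.inl one_ne_zero)
    rw [Real.one_rpow] at h1
    exact h1
  have hsd : ∀ n, s n ^ d * |(x (n + N)).det| = |g.det| := by
    intro n
    rcases Nat.eq_zero_or_pos d with h0 | h0
    · subst h0
      rw [pow_zero, one_mul, det_isEmpty, det_isEmpty]
    · have h2 : s n ^ d = r n := by
        rw [hs]
        simp only
        rw [← Real.rpow_natCast, ← Real.rpow_mul (hr0 n).le, one_div,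
          inv_mul_cancel₀ (by exact_mod_cast h0.ne'), Real.rpow_one]
      rw [h2, hr]
      exact div_mul_cancel₀ _ (abs_ne_zero.2 (hne n))
  refine ⟨fun n => s n • x (n + N), ?_, ?_, ?_⟩
  · intro n
    refine ⟨subset_closure ?_, ?_⟩
    · obtain ⟨a, _, γ, hγ, he⟩ := hx (n + N)
      refine ⟨fun i => s n * a i, Set.mem_univ _, γ, hγ, ?_⟩
      have h3 : diagonal (fun i => s n * a i) = s n • (diagonal a : Matrix (Fin d) (Fin d) ℝ) := by
        rw [← diagonal_smul]
        rfl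
      simp only
      rw [he, h3, smul_mul, smul_mul]
    · simp only
      rw [det_smul, abs_mul, abs_pow, abs_of_pos (hs0 n), Fintype.card_fin]
      exact hsd n
  · have h4 := hs1.smul hlim'
    rw [one_smul] at h4
    exact h4
  · intro n a
    obtain ⟨b, _, γ, hγ, he⟩ := hx (n + N)
    obtain ⟨U, hU⟩ := exists_unit hγ
    have hb : ∀ i, b i ≠ 0 := by
      intro i h0
      apply hne n
      rw [he, det_mul, det_mul, det_diagonal, Finset.prod_eq_zero (Finset.mem_univ i) h0, zero_mul,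
        zero_mul]
    have h3 : diagonal (fun i => s n * b i) = s n • (diagonal b : Matrix (Fin d) (Fin d) ℝ) := by
      rw [← diagonal_smul]
      rfl
    have h5 : s n • x (n + N) = diagonal (fun i => s n * b i) * g *
        im (U : Matrix (Fin d) (Fin d) ℤ) := by
      rw [he, h3, smul_mul, smul_mul, hU]
      rfl
    simp only
    rw [h5]
    exact diag_aut_iff (fun i => mul_ne_zero (hs0 n).ne' (hb i)) U a

theorem LL_mono {g : Matrix (Fin d) (Fin d) ℝ} (hg : g.det ≠ 0)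
    {z : Matrix (Fin d) (Fin d) ℝ} (hz : z ∈ Om g) : LL g ⊆ LL z := by
  intro a ha
  obtain ⟨y, _, h2, h3⟩ := near hg hz
  exact ⟨ha.1, aut_closed (Om_det_ne hg hz) h2 tendsto_const_nhds (fun n => (h3 n a).2 ha.2)⟩

theorem LL_eq {g : Matrix (Fin d) (Fin d) ℝ} (hg : g.det ≠ 0) {c : ℝ} (hc : 0 < c)
    (hp : Pos c g) {z : Matrix (Fin d) (Fin d) ℝ} (hz : z ∈ Om g) {b : Fin d → ℝ}
    (hb : Sz z b) (h3 : 3 ≤ (Finset.univ.image b).card) : b ∈ LL g := by
  obtain ⟨y, h1, h2, h4⟩ := near hg hz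
  obtain ⟨n, hn⟩ := (isolated hg hc hp hz hb h3 h1 h2).exists
  exact ⟨hb.1.1, (h4 n b).1 hn⟩

end Pool.Agent.H46.IS
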