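import Pool.Agent.H66.RL.Cnt
import Pool.Agent.H66.RL.Gd
import Pool.Agent.H66.RL.Ft
import Pool.Agent.H66.RL.Tree
import Pool.Agent.H66.RL.Fx
import Pool.Agent.H66.RL.Apx
import Pool.Agent.H66.RL.Main

/-!
# The count of separated values for towers of any length

As `main_count` and `log_one` (H66/RL), for forms with a tower of length `m` in the closed orbit.
-/

set_option autoImplicit false

namespace Pool.Agent.H46.IS

open Matrix Filter Topology Pool.Agent.H89.CSD Pool.Agent.H46.RG Pool.Agent.H66.RL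

variable {d : ℕ}

/-- There is a tower of length `m` in the closed orbit. -/
def Tow (g : Matrix (Fin d) (Fin d) ℝ) (m : ℕ) : Prop :=
  ∃ st : List (Step d), st.length = m ∧ Val st ∧ (Ys (closure (Orb (A1 d) g)) st).Nonempty

theorem main_count_gen (hd : 3 ≤ d) {c : ℝ} (hc : 0 < c) (m : ℕ) :
    ∃ R κ lam : ℝ, 1 ≤ R ∧ 0 < κ ∧ 0 < lam ∧ lam < 1 ∧
      ∀ g : Matrix (Fin d) (Fin d) ℝ, |g.det| = 1 → Pos c g → Tow g m → ∀ n : ℕ,
        ∃ T : Finset (Fin d → ℤ),
          n ^ m ≤ T.card + m * d ^ 4 * n ^ (m - 1) ∧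
          (∀ x ∈ T, x ≠ 0 ∧ |P g (ic x)| ≤ R) ∧
          ∀ x ∈ T, ∀ y ∈ T, x ≠ y →
            κ * lam ^ (m * n) ≤ |P g (ic x) - P g (ic y)| := by
  classical
  obtain ⟨B, hB, hfx⟩ := find_x (d := d) (by omega) hc
  set BB : ℝ := B * 2 ^ m with hBB
  have hBB1 : 1 ≤ BB := by
    have h2 : (1 : ℝ) ≤ 2 ^ m := one_le_pow₀ (by norm_num)
    nlinarith
  have hBB0 : 0 < BB := by linarith
  set ρ₀ : ℝ := 1 / (8 * BB ^ 6) with hρ₀
  have hρ : 0 < ρ₀ := by positivity
  set Lam : ℝ := 8 * (d : ℝ) ^ 2 * BB ^ 4 with hLam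
  have hd3 : (3 : ℝ) ≤ d := by exact_mod_cast hd
  have hLam1 : 1 < Lam := by
    have h2 : (1 : ℝ) ≤ BB ^ 4 := one_le_pow₀ hBB1
    have h3 : (9 : ℝ) ≤ (d : ℝ) ^ 2 := by nlinarith
    nlinarith
  set C : ℝ := 2 * BB ^ (d + 2) * ρ₀ with hC
  set cc : ℝ := 1 / (4 * BB ^ (d + 2)) * ρ₀ with hcc
  have hC0 : 0 < C := by positivity
  have hcc0 : 0 < cc := by positivity
  have hccC : cc ≤ C := by
    rw [hcc, hC]
    have h2 : (1 : ℝ) ≤ BB ^ (d + 2) := one_le_pow₀ hBB1
    apply mul_le_mul_of_nonneg_right _ hρ.le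
    rw [div_le_iff₀ (by positivity)]
    nlinarith
  set lam : ℝ := min (cc / (8 * C)) (1 / Lam ^ 2) with hlam
  have hlam0 : 0 < lam := lt_min (by positivity) (by positivity)
  have hlam1 : lam < 1 := by
    refine (min_le_right _ _).trans_lt ?_
    rw [div_lt_one (by positivity)]
    nlinarith
  have hW : 2 * Real.log Lam ≤ Real.log (1 / lam) := by
    have h2 : Lam ^ 2 ≤ 1 / lam := by
      rw [le_div_iff₀ hlam0]
      have h3 : lam ≤ 1 / Lam ^ 2 := min_le_right _ _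
      calc Lam ^ 2 * lam ≤ Lam ^ 2 * (1 / Lam ^ 2) := by gcongr
        _ = 1 := by field_simp
    have h4 : Real.log (Lam ^ 2) ≤ Real.log (1 / lam) :=
      Real.log_le_log (by positivity) h2
    rw [Real.log_pow] at h4
    exact_mod_cast h4
  refine ⟨BB ^ d + 1, 2 * C, lam, by have := pow_pos hBB0 d; linarith, by positivity, hlam0,
    hlam1, ?_⟩
  intro g hg hp htow n
  have hg0 : g.det ≠ 0 := by
    intro h0
    rw [h0, abs_zero] at hg
    exact zero_ne_one hg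
  obtain ⟨hinv, hYO⟩ := isInv_pos g
  obtain ⟨st, hst, hval, z, hz⟩ := htow
  have hgc := good_count hρ hlam0 hW m n hval (by omega)
  rw [hst] at hgc
  have hzY := Ys_subset _ _ hz
  obtain ⟨T, hTV, hTc, hTs⟩ := count hcc0 hccC hlam0 (min_le_left _ _) m (m * n)
    (Vb (closure (Orb (A1 d) g)) (BB ^ d)) ((BX m n m).filter (Good ρ₀ lam Lam st)) (by
      intro l hl
      obtain ⟨hl1, hl2⟩ := Finset.mem_filter.1 hl
      obtain ⟨h1, h2, h3⟩ := BX_prop le_rfl hl1
      refine ⟨h1, h2, fun k hk => (h3 k hk).2, ?_⟩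
      obtain ⟨α, hα, hfit⟩ := fit_zero (by omega) hρ hlam0 hval (h1.trans hst.symm) hl2
      have haA : (fun i => Real.exp (α i)) ∈ A1 d :=
        ⟨fun i => Real.exp_pos _, by rw [← Real.exp_sum, hα, Real.exp_zero]⟩
      have hhY := hinv.diag _ haA z hzY
      have hhO := hYO hhY
      obtain ⟨x, hx0, hx⟩ := hfx _ (hhO.2.trans hg) (Om_pos hg0 hc hp hhO)
      refine ⟨P z (ic x), tree hρ hlam0 hlam1.le le_rfl le_rfl hα hx0 st l B z hB
        (by rw [hst]) hz hfit fun p => ?_⟩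
      have h4 : ((diagonal fun i => Real.exp (α i)) * z) *ᵥ ic x =
          fun p => Real.exp (α p) * (z *ᵥ ic x) p := by
        rw [← Matrix.mulVec_mulVec]
        ext p
        rw [Matrix.mulVec_diagonal]
      have h5 := hx p
      rw [h4] at h5
      simp only [abs_mul, abs_of_pos (Real.exp_pos _)] at h5
      rw [mul_comm (Real.exp (α p))] at h5
      exact h5)
  obtain ⟨T', hT'c, hT'R, hT's⟩ := approx (η := 2 * C * lam ^ (m * n)) subset_rfl hTV
    (by positivity) (fun x hx y hy hxy => by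
      have := hTs x hx y hy hxy
      linarith)
  refine ⟨T', ?_, hT'R, hT's⟩
  rw [hT'c]
  omega

private theorem log_abs {m : ℕ} (hm : 1 ≤ m) (D : ℕ) {κ lam : ℝ} (hκ : 0 < κ) (hl0 : 0 < lam)
    (hl1 : lam < 1) :
    ∃ κ' : ℝ, 0 < κ' ∧ ∀ ε : ℝ, 0 < ε → ε < 1 → κ' * Real.log (1 / ε) ^ m ≤ 1 ∨
      ∃ n : ℕ, ε ≤ κ * lam ^ (m * n) ∧
        κ' * Real.log (1 / ε) ^ m + (D : ℝ) * (n : ℝ) ^ (m - 1) ≤ (n : ℝ) ^ m := by
  set L : ℝ := Real.log (1 / lam) with hL
  have hL0 : 0 < L := Real.log_pos (by rw [lt_div_iff₀ hl0]; linarith)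
  have hm0 : (0 : ℝ) < m := by exact_mod_cast hm
  set M : ℝ := m * L with hM
  have hM0 : 0 < M := by positivity
  set N₀ : ℝ := max (2 * |Real.log κ|) (4 * M * (1 + 2 * D)) with hN₀
  have hN1 : 2 * |Real.log κ| ≤ N₀ := le_max_left _ _
  have hN2 : 4 * M * (1 + 2 * D) ≤ N₀ := le_max_right _ _
  have hN0 : 0 ≤ N₀ := le_trans (by positivity) hN1
  have hA : 0 < 1 / (2 * (4 * M) ^ m) := by positivity
  have hB : 0 < 1 / (N₀ ^ m + 1) := by positivity
  refine ⟨min (1 / (2 * (4 * M) ^ m)) (1 / (N₀ ^ m + 1)), lt_min hA hB, fun ε hε hε1 => ?_⟩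
  set κ' := min (1 / (2 * (4 * M) ^ m)) (1 / (N₀ ^ m + 1)) with hκ'
  have hκ'0 : 0 < κ' := lt_min hA hB
  have hk1 : κ' ≤ 1 / (2 * (4 * M) ^ m) := min_le_left _ _
  have hk2 : κ' ≤ 1 / (N₀ ^ m + 1) := min_le_right _ _
  set l : ℝ := Real.log (1 / ε) with hl
  have hl' : 0 < l := Real.log_pos (by rw [lt_div_iff₀ hε]; linarith)
  rcases lt_or_ge l N₀ with h | h
  · left
    calc κ' * l ^ m ≤ 1 / (N₀ ^ m + 1) * N₀ ^ m :=
          mul_le_mul hk2 (pow_le_pow_left₀ hl'.le h.le m) (by positivity) hB.le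
      _ ≤ 1 := by
          rw [one_div, inv_mul_le_iff₀ (by positivity)]
          linarith
  · right
    have hx : l / 2 ≤ l + Real.log κ := by
      have := neg_abs_le (Real.log κ)
      linarith
    set y : ℝ := l / (4 * M) with hy
    have hyD : 1 + 2 * (D : ℝ) ≤ y := by
      rw [hy, le_div_iff₀ (by positivity)]
      linarith
    have h2y : 2 * y ≤ (l + Real.log κ) / M := by
      rw [le_div_iff₀ hM0, hy]
      have : 2 * (l / (4 * M)) * M = l / 2 := by
        field_simp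
        ring
      linarith
    have hD0 : (0 : ℝ) ≤ D := Nat.cast_nonneg D
    refine ⟨⌊(l + Real.log κ) / M⌋₊, ?_, ?_⟩
    · have hn : (⌊(l + Real.log κ) / M⌋₊ : ℝ) ≤ (l + Real.log κ) / M :=
        Nat.floor_le (by linarith)
      rw [le_div_iff₀ hM0] at hn
      rw [← Real.log_le_log_iff hε (by positivity), Real.log_mul hκ.ne' (by positivity),
        Real.log_pow]
      have e1 : l = - Real.log ε := by rw [hl, one_div, Real.log_inv]
      have e2 : L = - Real.log lam := by rw [hL, one_div, Real.log_inv]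
      have e3 : Real.log lam = - L := by linarith
      have e4 : Real.log ε = - l := by linarith
      rw [e3, e4]
      push_cast
      rw [hM] at hn
      linarith
    · have hn : (l + Real.log κ) / M - 1 < (⌊(l + Real.log κ) / M⌋₊ : ℝ) :=
        Nat.sub_one_lt_floor _
      set n : ℕ := ⌊(l + Real.log κ) / M⌋₊ with hnn
      have hyn : y ≤ n := by linarith
      have hy0 : 0 ≤ y := by linarith
      have h1 : κ' * l ^ m ≤ (n : ℝ) ^ m / 2 := by
        calc κ' * l ^ m ≤ 1 / (2 * (4 * M) ^ m) * l ^ m :=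
              mul_le_mul_of_nonneg_right hk1 (by positivity)
          _ = y ^ m / 2 := by
              rw [hy, div_pow]
              field_simp
          _ ≤ (n : ℝ) ^ m / 2 := by
              have := pow_le_pow_left₀ hy0 hyn m
              linarith
      have h2 : (D : ℝ) * (n : ℝ) ^ (m - 1) ≤ (n : ℝ) ^ m / 2 := by
        have h3 : (n : ℝ) ^ m = n * (n : ℝ) ^ (m - 1) := by
          rw [← pow_succ']
          congr 1
          omega
        rw [h3]
        have h4 : (D : ℝ) ≤ n / 2 := by linarith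
        calc (D : ℝ) * (n : ℝ) ^ (m - 1) ≤ n / 2 * (n : ℝ) ^ (m - 1) :=
              mul_le_mul_of_nonneg_right h4 (by positivity)
          _ = n * (n : ℝ) ^ (m - 1) / 2 := by ring
      linarith

theorem log_one_gen (hd : 3 ≤ d) {c : ℝ} (hc : 0 < c) {m : ℕ} (hm : 1 ≤ m) :
    ∃ R κ : ℝ, 1 ≤ R ∧ 0 < κ ∧ ∀ g : Matrix (Fin d) (Fin d) ℝ, |g.det| = 1 → Pos c g →
      Tow g m → ∀ ε : ℝ, 0 < ε → ε < 1 → ∃ T : Finset (Fin d → ℤ),
        κ * Real.log (1 / ε) ^ m ≤ T.card ∧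
        (∀ x ∈ T, x ≠ 0 ∧ |P g (ic x)| ≤ R) ∧
        ∀ x ∈ T, ∀ y ∈ T, x ≠ y → ε ≤ |P g (ic x) - P g (ic y)| := by
  classical
  obtain ⟨R, κ, lam, hR, hκ, hl0, hl1, hmain⟩ := main_count_gen hd hc m
  obtain ⟨κ', hκ', habs⟩ := log_abs hm (m * d ^ 4) hκ hl0 hl1
  refine ⟨R, κ', hR, hκ', fun g hg hp hn ε hε hε1 => ?_⟩
  rcases habs ε hε hε1 with h | ⟨n, hn1, hn2⟩
  · obtain ⟨T, hT1, hT2, -⟩ := hmain g hg hp hn (m * d ^ 4 + 1)
    have hne : T.Nonempty := by
      rw [← Finset.card_pos]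
      by_contra h0
      have h1 : T.card = 0 := by omega
      rw [h1, zero_add] at hT1
      have h2 : (m * d ^ 4 + 1) ^ m = (m * d ^ 4 + 1) * (m * d ^ 4 + 1) ^ (m - 1) := by
        rw [← pow_succ']
        congr 1
        omega
      rw [h2] at hT1
      have h3 : 0 < (m * d ^ 4 + 1) ^ (m - 1) := by positivity
      have h4 := Nat.le_of_mul_le_mul_right hT1 h3
      omega
    obtain ⟨x, hx⟩ := hne
    refine ⟨{x}, by simpa using h, fun y hy => ?_, fun a ha b hb hab => ?_⟩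
    · rw [Finset.mem_singleton.1 hy]
      exact hT2 x hx
    · rw [Finset.mem_singleton.1 ha, Finset.mem_singleton.1 hb] at hab
      exact absurd rfl hab
  · obtain ⟨T, hT1, hT2, hT3⟩ := hmain g hg hp hn n
    refine ⟨T, ?_, hT2, fun x hx y hy hxy => hn1.trans (hT3 x hx y hy hxy)⟩
    have h1 : ((n ^ m : ℕ) : ℝ) ≤ ((T.card + m * d ^ 4 * n ^ (m - 1) : ℕ) : ℝ) := by
      exact_mod_cast hT1
    push_cast at h1 hn2
    linarith

end Pool.Agent.H46.IS
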