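import Pool.Agent.H46.RU.Dsc
import Pool.Agent.H46.RU.Zcr
import Pool.Agent.H46.RU.Siz

/-!
# Theorem S (MP_edeaa2_an): isolation of the lattices with more than two classes of rows

Notation as in `H46/RU`.  `LL z`: the positive diagonal automorphs of determinant one of the lattice of `z`.

THEOREM S (`LL_eq`, module CNS): `ν (g) > 0`, `z ∈ Om g`, `b ∈ LL z` separates as much as all of `LL z`, and `b` has at least
three different values.  Then `b ∈ LL g`.

Arithmetic: FLD (the field of `b`), UNT (units give automorphs), DIR (Dirichlet's theorem: the logarithms of the automorphs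
span the functions which are constant on the level sets of `b`, with sum zero), APP (approximation of directions), DNS (the
quotients `a i / a j` are dense).  Dynamics: MGA (magnification by the powers of `b`), DEG (degeneration), ONE (reduction to one
block), ISN (isolation), CNS (Theorem S).
-/

set_option autoImplicit false

namespace Pool.Agent.H46.IS

open Matrix Filter Topology Pool.Agent.H89.CSD Pool.Agent.H46.RG Pool.Agent.H46.RU

variable {d : ℕ}

/-- The positive diagonal automorphs of determinant one of the lattice of `z`. -/
def LL (z : Matrix (Fin d) (Fin d) ℝ) : Set (Fin d → ℝ) := {a | a ∈ A1 d ∧ diagonal a ∈ Aut z}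

/-- `b` is an automorph of `z` and all automorphs are constant on the level sets of `b`. -/
def Sz (z : Matrix (Fin d) (Fin d) ℝ) (b : Fin d → ℝ) : Prop :=
  b ∈ LL z ∧ ∀ a ∈ LL z, ∀ i j, b i = b j → a i = a j

end Pool.Agent.H46.IS
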