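import Pool.Agent.H46.IS.App
import Pool.Agent.H31.IS.Cj

/-!
# [H46 IS DEG] Degeneration at a fixed lattice (50 min)

`a n ∈ LL z` with `|log (a n i) - n * w i| ≤ C` (`t = n`).  `V n`: `diag (a n) z = z V n`, so `diag (a n) (1 + v) z (V n)⁻¹ = (1 + v n) z` with
`v n = diag (a n) v diag (a n)⁻¹`, and `(1 + v n) z ∈ Om g` (`Om_inv`).  `v n k l = (a n k / a n l) * v k l`, and
`a n k / a n l = exp (log (a n k) - log (a n l))` is between `exp (n (w k - w l) - 2 C)` and `exp (n (w k - w l) + 2 C)`.  So for `v k l ≠ 0` (where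
`w k ≤ w l`) it is at most `exp (2 C)`; it tends to `0` if `w k < w l`, and it is at least `exp (- 2 C)` if `w k = w l`.  All `v n` have
bounded entries; a subsequence converges to `v'` (compactness of a box, `tendsto_subseq_of_bounded` or
`IsCompact.tendsto_subseq`), `(1 + v') z ∈ Om g` (closed), `v' k l = 0` if `v k l = 0` or `w k < w l`, and
`|v' k l| ≥ exp (- 2 C) |v k l| > 0` if `v k l ≠ 0` and `w k = w l`.
-/

set_option autoImplicit false

namespace Pool.Agent.H46.IS

open Matrix Filter Topology Pool.Agent.H89.CSD Pool.Agent.H46.RG Pool.Agent.H46.RU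

variable {d : ℕ}

theorem degen_z {g : Matrix (Fin d) (Fin d) ℝ} (hg : g.det ≠ 0)
    {z : Matrix (Fin d) (Fin d) ℝ} {v : Matrix (Fin d) (Fin d) ℝ}
    (hvz : (1 + v) * z ∈ Om g) {w : Fin d → ℝ} {C : ℝ}
    (happ : ∀ t : ℝ, ∃ a ∈ LL z, ∀ i, |Real.log (a i) - t * w i| ≤ C)
    (hw : ∀ k l, v k l ≠ 0 → w k ≤ w l) :
    ∃ v' : Matrix (Fin d) (Fin d) ℝ, (1 + v') * z ∈ Om g ∧
      ∀ k l, v' k l ≠ 0 ↔ (v k l ≠ 0 ∧ w k = w l) := by
  choose a ha hlog using fun n : ℕ => happ (n : ℝ)
  have hpos : ∀ n i, 0 < a n i := fun n i => (ha n).1.1 i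
  have hrat : ∀ n k l, a n k / a n l = Real.exp (Real.log (a n k) - Real.log (a n l)) := by
    intro n k l
    rw [Real.exp_sub, Real.exp_log (hpos n k), Real.exp_log (hpos n l)]
  have hup : ∀ (n : ℕ) (k l : Fin d), a n k / a n l ≤ Real.exp (2 * C + (n : ℝ) * (w k - w l)) := by
    intro n k l
    rw [hrat]
    apply Real.exp_le_exp.2
    have h1 := abs_le.1 (hlog n k)
    have h2 := abs_le.1 (hlog n l)
    linarith [h1.2, h2.1]
  have hlo : ∀ (n : ℕ) (k l : Fin d), Real.exp (-(2 * C) + (n : ℝ) * (w k - w l)) ≤ a n k / a n l := by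
    intro n k l
    rw [hrat]
    apply Real.exp_le_exp.2
    have h1 := abs_le.1 (hlog n k)
    have h2 := abs_le.1 (hlog n l)
    linarith [h1.1, h2.2]
  have hr0 : ∀ n k l, 0 < a n k / a n l := fun n k l => div_pos (hpos n k) (hpos n l)
  let F : ℕ → Matrix (Fin d) (Fin d) ℝ := fun n => Matrix.of fun k l => a n k / a n l * v k l
  have hFd : ∀ n k l, F n k l = a n k / a n l * v k l := fun n k l => rfl
  have hFz : ∀ n, (1 + F n) * z ∈ Om g := fun n =>
    Pool.H31.IS.conj_mem hg hvz (ha n)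
  have hsum : ∀ k l, |v k l| ≤ ∑ i, ∑ j, |v i j| := by
    intro k l
    refine (Finset.single_le_sum (f := fun j => |v k j|) (fun j _ => abs_nonneg _)
      (Finset.mem_univ l)).trans ?_
    exact Finset.single_le_sum (f := fun i => ∑ j, |v i j|)
      (fun i _ => Finset.sum_nonneg fun j _ => abs_nonneg _) (Finset.mem_univ k)
  have hbd : ∀ n k l, |F n k l| ≤ Real.exp (2 * C) * ∑ i, ∑ j, |v i j| := by
    intro n k l
    have h0 : 0 ≤ Real.exp (2 * C) * ∑ i, ∑ j, |v i j| :=
      mul_nonneg (Real.exp_pos _).le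
        (Finset.sum_nonneg fun i _ => Finset.sum_nonneg fun j _ => abs_nonneg _)
    by_cases hv : v k l = 0
    · rw [hFd, hv, mul_zero, abs_zero]
      exact h0
    · rw [hFd, abs_mul, abs_of_pos (hr0 n k l)]
      refine mul_le_mul ((hup n k l).trans ?_) (hsum k l) (abs_nonneg _) (Real.exp_pos _).le
      apply Real.exp_le_exp.2
      have h1 := hw k l hv
      have h2 : (0 : ℝ) ≤ n := Nat.cast_nonneg n
      nlinarith
  obtain ⟨v', φ, hφ, hlim⟩ := Pool.H31.IS.exists_subseq F _ hbd
  refine ⟨v', Pool.H31.IS.lim_mem hg hlim fun n => hFz (φ n), ?_⟩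
  intro k l
  have hkl := Pool.H31.IS.entry_tendsto hlim k l
  constructor
  · intro hv'
    by_cases hv : v k l = 0
    · exfalso
      apply hv'
      refine tendsto_nhds_unique hkl ?_
      have h1 : (fun n => F (φ n) k l) = fun _ => 0 := by
        funext n
        rw [hFd, hv, mul_zero]
      rw [h1]
      exact tendsto_const_nhds
    · refine ⟨hv, ?_⟩
      by_contra hne
      have hlt : w k < w l := lt_of_le_of_ne (hw k l hv) hne
      apply hv'
      refine tendsto_nhds_unique hkl ?_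
      apply squeeze_zero_norm (a := fun n : ℕ =>
        Real.exp (2 * C + ((φ n : ℕ) : ℝ) * (w k - w l)) * |v k l|)
      · intro n
        rw [Real.norm_eq_abs, hFd, abs_mul, abs_of_pos (hr0 _ k l)]
        exact mul_le_mul_of_nonneg_right (hup _ k l) (abs_nonneg _)
      · have h1 : Tendsto (fun n : ℕ => 2 * C + ((φ n : ℕ) : ℝ) * (w k - w l)) atTop atBot := by
          apply tendsto_atBot_add_const_left
          exact Filter.Tendsto.atTop_mul_const_of_neg (by linarith)
            (tendsto_natCast_atTop_atTop.comp hφ.tendsto_atTop)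
        have h2 := (Real.tendsto_exp_atBot.comp h1).mul_const |v k l|
        rw [zero_mul] at h2
        exact h2
  · rintro ⟨hv, hkl'⟩ h0
    have h1 : ∀ n, Real.exp (-(2 * C)) * |v k l| ≤ |F (φ n) k l| := by
      intro n
      rw [hFd, abs_mul, abs_of_pos (hr0 _ k l)]
      refine mul_le_mul_of_nonneg_right ?_ (abs_nonneg _)
      have h2 := hlo (φ n) k l
      rw [hkl', sub_self, mul_zero, add_zero] at h2
      exact h2
    have h2 : Real.exp (-(2 * C)) * |v k l| ≤ |v' k l| :=
      ge_of_tendsto hkl.abs (Eventually.of_forall h1)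
    rw [h0, abs_zero] at h2
    have h3 : 0 < Real.exp (-(2 * C)) * |v k l| := mul_pos (Real.exp_pos _) (abs_pos.2 hv)
    linarith

end Pool.Agent.H46.IS
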