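import Pool.Agent.H46.IS.Defs

/-!
# [H46 IS UNT] Units give automorphs (75 min)

(1) There is `N > 0` such that for all `x : 𝓞 K` the matrix `N • Φ x` has integer entries: `𝓞 K` is a finitely generated `ℤ`-module
(`NumberField.RingOfIntegers.basis K`); take a common denominator `N` of the entries of the matrices `Φ ω_k` (product of the
denominators).
(2) The ring `𝓞 K ⧸ Ideal.span {(N : 𝓞 K)}` is finite (the ideal is not zero; `Ideal.finiteQuotientOfFreeOfNeBot`), so the image of the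
unit `u` has a power `e > 0` equal to `1` (finite group of units; `isOfFinOrder_of_finite`): `u ^ e = 1 + N y`, and in the same way
`(u⁻¹) ^ e = 1 + N y'`, `y, y' : 𝓞 K`.
(3) `Φ (u ^ e) = 1 + N • Φ y` and `Φ (u⁻¹ ^ e)` have integer entries and their product is `1`: `Φ (u ^ e) = W` over `ℚ` with a unit `W` of the
integer matrices.  `h (u ^ e)`: `diag (σ i u ^ e) z = z im W`, so `diag (σ i u ^ e) ∈ Aut z`; the square: `diag (σ i u ^ (2 e)) ∈ Aut z` (`Aut_mul`).  The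
entries are positive (`σ i u ≠ 0`, even exponent) and their product is `1` (`Aut_det`).
-/

set_option autoImplicit false

namespace Pool.Agent.H46.IS

open Matrix NumberField Pool.Agent.H89.CSD Pool.Agent.H46.RG Pool.Agent.H46.RU

variable {d : ℕ}

private theorem unt_den {K : Type} [Field K] [NumberField K]
    (Φ : K →+* Matrix (Fin d) (Fin d) ℚ) :
    ∃ N : ℕ, 0 < N ∧ ∀ x : 𝓞 K, ∀ i j, ∃ m : ℤ, (N : ℚ) * Φ (algebraMap (𝓞 K) K x) i j = m := by
  classical
  set ω := RingOfIntegers.basis K with hω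
  refine ⟨∏ k, ∏ i, ∏ j, (Φ (algebraMap (𝓞 K) K (ω k)) i j).den, ?_, ?_⟩
  · exact Finset.prod_pos fun k _ => Finset.prod_pos fun i _ => Finset.prod_pos fun j _ => Rat.den_pos _
  · intro x i j
    set N : ℕ := ∏ k, ∏ i, ∏ j, (Φ (algebraMap (𝓞 K) K (ω k)) i j).den with hN
    have h1 : ∀ k, ∃ m : ℤ, (N : ℚ) * Φ (algebraMap (𝓞 K) K (ω k)) i j = m := by
      intro k
      have h2 : (Φ (algebraMap (𝓞 K) K (ω k)) i j).den ∣ N :=
        ((Finset.dvd_prod_of_mem (fun j => (Φ (algebraMap (𝓞 K) K (ω k)) i j).den)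
          (Finset.mem_univ j)).trans (Finset.dvd_prod_of_mem
          (fun i => ∏ j, (Φ (algebraMap (𝓞 K) K (ω k)) i j).den) (Finset.mem_univ i))).trans
          (Finset.dvd_prod_of_mem
            (fun k => ∏ i, ∏ j, (Φ (algebraMap (𝓞 K) K (ω k)) i j).den) (Finset.mem_univ k))
      obtain ⟨t, ht⟩ := h2
      refine ⟨t * (Φ (algebraMap (𝓞 K) K (ω k)) i j).num, ?_⟩
      rw [ht]
      have h3 := Rat.mul_den_eq_num (Φ (algebraMap (𝓞 K) K (ω k)) i j)
      push_cast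
      rw [← h3]
      ring
    choose m hm using h1
    refine ⟨∑ k, ω.repr x k * m k, ?_⟩
    have h4 : Φ (algebraMap (𝓞 K) K x) i j =
        ∑ k, (ω.repr x k : ℚ) * Φ (algebraMap (𝓞 K) K (ω k)) i j := by
      conv_lhs => rw [← ω.sum_repr x]
      rw [map_sum, map_sum, Matrix.sum_apply]
      refine Finset.sum_congr rfl fun k _ => ?_
      rw [zsmul_eq_mul, map_mul, map_mul, map_intCast, map_intCast]
      rw [← zsmul_eq_mul, Matrix.smul_apply, zsmul_eq_mul]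
    rw [h4, Finset.mul_sum]
    push_cast
    refine Finset.sum_congr rfl fun k _ => ?_
    rw [← hm k]
    ring

private theorem unt_pow {R : Type} [CommRing R] (I : Ideal R) [Finite (R ⧸ I)] (u : Rˣ) :
    ∃ e : ℕ, 0 < e ∧ ((u ^ e : Rˣ) : R) - 1 ∈ I ∧ (((u ^ e)⁻¹ : Rˣ) : R) - 1 ∈ I := by
  have h1 : IsOfFinOrder (Units.map (Ideal.Quotient.mk I : R →* R ⧸ I) u) := isOfFinOrder_of_finite _
  obtain ⟨e, he, h2⟩ := isOfFinOrder_iff_pow_eq_one.1 h1
  rw [← map_pow] at h2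
  refine ⟨e, he, ?_, ?_⟩
  · rw [← Ideal.Quotient.eq_zero_iff_mem, map_sub, map_one, sub_eq_zero]
    exact congrArg Units.val h2
  · rw [← Ideal.Quotient.eq_zero_iff_mem, map_sub, map_one, sub_eq_zero]
    have h3 : Units.map (Ideal.Quotient.mk I : R →* R ⧸ I) (u ^ e)⁻¹ = 1 := by
      rw [map_inv, h2, inv_one]
    exact congrArg Units.val h3

private theorem unt_int {K : Type} [Field K] [NumberField K]
    {Φ : K →+* Matrix (Fin d) (Fin d) ℚ} {N : ℕ}
    (hN : ∀ x : 𝓞 K, ∀ i j, ∃ m : ℤ, (N : ℚ) * Φ (algebraMap (𝓞 K) K x) i j = m) {v : 𝓞 K}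
    (hv : v - 1 ∈ Ideal.span {(N : 𝓞 K)}) :
    ∃ W : Matrix (Fin d) (Fin d) ℤ, Φ (algebraMap (𝓞 K) K v) = W.map (Int.cast : ℤ → ℚ) := by
  obtain ⟨y, hy⟩ := Ideal.mem_span_singleton.1 hv
  choose m hm using hN y
  refine ⟨1 + Matrix.of m, ?_⟩
  have h1 : v = 1 + (N : 𝓞 K) * y := by rw [← hy]; ring
  rw [h1, map_add, map_one, map_mul, map_natCast, map_add, map_one, map_mul, map_natCast]
  ext i j
  rw [Matrix.add_apply, ← nsmul_eq_mul, Matrix.smul_apply, nsmul_eq_mul, hm, Matrix.map_apply,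
    Matrix.add_apply, Matrix.of_apply]
  push_cast
  congr 1
  rcases eq_or_ne i j with h | h
  · rw [h, Matrix.one_apply_eq, Matrix.one_apply_eq, Int.cast_one]
  · rw [Matrix.one_apply_ne h, Matrix.one_apply_ne h, Int.cast_zero]

theorem unit_aut {z : Matrix (Fin d) (Fin d) ℝ} (hz : z.det ≠ 0) {K : Type} [Field K]
    [NumberField K] {σ : Fin d → K →+* ℝ} {Φ : K →+* Matrix (Fin d) (Fin d) ℚ}
    (h : ∀ x : K, diagonal (fun i => σ i x) * z = z * (Φ x).map (algebraMap ℚ ℝ))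
    (u : (𝓞 K)ˣ) :
    ∃ e : ℕ, 0 < e ∧ (fun i => (σ i (algebraMap (𝓞 K) K (u : 𝓞 K))) ^ (2 * e)) ∈ LL z := by
  obtain ⟨N, hN0, hN⟩ := unt_den Φ
  have hNne : Ideal.span {(N : 𝓞 K)} ≠ ⊥ := by
    rw [Ne, Ideal.span_singleton_eq_bot]
    exact_mod_cast hN0.ne'
  have : Finite (𝓞 K ⧸ Ideal.span {(N : 𝓞 K)}) := Ideal.finiteQuotientOfFreeOfNeBot _ hNne
  obtain ⟨e, he, h1, h2⟩ := unt_pow (Ideal.span {(N : 𝓞 K)}) u
  obtain ⟨W, hW⟩ := unt_int hN h1
  obtain ⟨W', hW'⟩ := unt_int hN h2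
  have hinj : ∀ A B : Matrix (Fin d) (Fin d) ℤ, A.map (Int.cast : ℤ → ℚ) =
      B.map (Int.cast : ℤ → ℚ) → A = B := by
    intro A B hAB
    ext i j
    have := congrFun (congrFun hAB i) j
    simpa using this
  have hmul : ∀ A B : Matrix (Fin d) (Fin d) ℤ, (A * B).map (Int.cast : ℤ → ℚ) =
      A.map (Int.cast : ℤ → ℚ) * B.map (Int.cast : ℤ → ℚ) := by
    intro A B
    ext i j
    simp [Matrix.mul_apply]
  have hone : (1 : Matrix (Fin d) (Fin d) ℤ).map (Int.cast : ℤ → ℚ) = 1 := by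
    ext i j
    rcases eq_or_ne i j with h | h
    · rw [h, Matrix.map_apply, Matrix.one_apply_eq, Matrix.one_apply_eq, Int.cast_one]
    · rw [Matrix.map_apply, Matrix.one_apply_ne h, Matrix.one_apply_ne h, Int.cast_zero]
  have hWW' : W * W' = 1 := by
    apply hinj
    rw [hmul, ← hW, ← hW', hone, ← map_mul, ← map_mul, ← Units.val_mul, mul_inv_cancel,
      Units.val_one, map_one, map_one]
  have hW'W : W' * W = 1 := by
    apply hinj
    rw [hmul, ← hW, ← hW', hone, ← map_mul, ← map_mul, ← Units.val_mul, inv_mul_cancel,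
      Units.val_one, map_one, map_one]
  have hA : diagonal (fun i => (σ i (algebraMap (𝓞 K) K (u : 𝓞 K))) ^ e) ∈ Aut z := by
    refine ⟨⟨W, W', hWW', hW'W⟩, ?_⟩
    have h3 := h (algebraMap (𝓞 K) K ((u ^ e : (𝓞 K)ˣ) : 𝓞 K))
    rw [hW] at h3
    have h4 : (W.map (Int.cast : ℤ → ℚ)).map (algebraMap ℚ ℝ) = im W := by
      ext i j
      simp [im]
    rw [h4] at h3
    rw [← h3]
    congr 2
    funext i
    rw [Units.val_pow_eq_pow_val, map_pow, map_pow]
  have hA2 : diagonal (fun i => (σ i (algebraMap (𝓞 K) K (u : 𝓞 K))) ^ (2 * e)) ∈ Aut z := by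
    have := Aut_mul hA hA
    rw [Matrix.diagonal_mul_diagonal] at this
    have heq : (fun i => (σ i (algebraMap (𝓞 K) K (u : 𝓞 K))) ^ (2 * e)) =
        fun i => (σ i (algebraMap (𝓞 K) K (u : 𝓞 K))) ^ e *
          (σ i (algebraMap (𝓞 K) K (u : 𝓞 K))) ^ e := by
      funext i
      ring
    rw [heq]
    exact this
  have hpos : ∀ i, 0 < (σ i (algebraMap (𝓞 K) K (u : 𝓞 K))) ^ (2 * e) := by
    intro i
    refine Even.pow_pos (even_two_mul e) ?_
    rw [Ne, map_eq_zero]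
    exact NumberField.Units.coe_ne_zero u
  refine ⟨e, he, ⟨hpos, ?_⟩, hA2⟩
  have h5 := Aut_det hz hA2
  rw [Matrix.det_diagonal, abs_of_pos (Finset.prod_pos fun i _ => hpos i)] at h5
  exact h5

end Pool.Agent.H46.IS
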