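import Pool.Agent.H46.IS.Fld
import Pool.Agent.H46.IS.Unt

/-!
# [H46 IS DIR] The logarithms of the automorphs span (90 min)

`field_data`: `K, σ, Φ`.  `pl i = InfinitePlace.mk (Complex.ofRealHom.comp (σ i))`: `pl i (x) = |σ i x|`, the place is real (`mult = 1`), every
place is some `pl i` (it is `mk φ`), and `pl i = pl j` iff `σ i = σ j` (real embeddings; evaluate: `InfinitePlace.mk_eq_iff`, the conjugate of
a real embedding is itself) iff `b i = b j`.
`w₀` the place of `NumberField.Units.dirichletUnitTheorem`.  The linear map `J : logSpace K → (Fin d → ℝ)`, `J y i = y (pl i)` if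
`pl i ≠ w₀`, and `J y i = - ∑ w, y w` if `pl i = w₀`.  For a unit `u` `J (logEmbedding u) i = log |σ i u|` (`logEmbedding_component`,
`sum_logEmbedding_component`, `mult = 1`), and `log |σ i u| = (2 e)⁻¹ * log ((σ i u) ^ (2 e))`, so `J (logEmbedding u)` is a real multiple of
an element of `LG z` (`unit_aut`).  So `J` maps `unitLattice K` into `span ℝ (LG z)`; by `unitLattice_span_eq_top` all `J y` are in
`span ℝ (LG z)` (`Submodule.map_span_le` or `Submodule.span_induction`).
Given `x`: `y w = x i` for any `i` with `pl i = w` (well defined, `x` is constant on the level sets of `b`).  `J y = x`: clear at `i` with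
`pl i ≠ w₀`; for `pl i = w₀`: all level sets have the same size `n > 0` (`level_card`), so `0 = ∑ i, x i = n * ∑ over all places`, hence
`x i = - ∑ w ≠ w₀, y w`.
-/

set_option autoImplicit false

namespace Pool.Agent.H46.IS

open Matrix NumberField Pool.Agent.H89.CSD Pool.Agent.H46.RG Pool.Agent.H46.RU

variable {d : ℕ}

section

variable {K : Type} [Field K] [NumberField K]

private noncomputable def dir_pl (f : K →+* ℝ) : InfinitePlace K :=
  InfinitePlace.mk (Complex.ofRealHom.comp f)

private theorem dir_pl_apply (f : K →+* ℝ) (x : K) : dir_pl f x = |f x| := by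
  show ‖((f x : ℝ) : ℂ)‖ = |f x|
  rw [Complex.norm_real, Real.norm_eq_abs]

private theorem dir_conj (f : K →+* ℝ) :
    ComplexEmbedding.conjugate (Complex.ofRealHom.comp f) = Complex.ofRealHom.comp f := by
  ext x
  show (starRingEnd ℂ) ((f x : ℝ) : ℂ) = ((f x : ℝ) : ℂ)
  exact Complex.conj_ofReal _

private theorem dir_pl_real (f : K →+* ℝ) : (dir_pl f).IsReal :=
  InfinitePlace.isReal_mk_iff.2 (ComplexEmbedding.isReal_iff.2 (dir_conj f))

private theorem dir_pl_inj {f g : K →+* ℝ} (h : dir_pl f = dir_pl g) : f = g := by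
  have h1 : Complex.ofRealHom.comp f = Complex.ofRealHom.comp g := by
    rcases InfinitePlace.mk_eq_iff.1 h with h | h
    · exact h
    · rwa [dir_conj] at h
  ext x
  exact Complex.ofReal_injective (RingHom.congr_fun h1 x)

private theorem dir_mult (f : K →+* ℝ) : (dir_pl f).mult = 1 :=
  InfinitePlace.mult_isReal ⟨dir_pl f, dir_pl_real f⟩

end

open NumberField.Units NumberField.Units.dirichletUnitTheorem in
theorem dir_span (hd : 0 < d) {z : Matrix (Fin d) (Fin d) ℝ} (hz : z.det ≠ 0) {c : ℝ}
    (hc : 0 < c) (hp : Pos c z) {b : Fin d → ℝ} (hb : diagonal b ∈ Aut z) {x : Fin d → ℝ}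
    (hx : ∀ i j, b i = b j → x i = x j) (hx0 : ∑ i, x i = 0) :
    x ∈ Submodule.span ℝ (LG z) := by
  classical
  obtain ⟨K, _, _, σ, Φ, h1, h2, h3⟩ := field_data hd hz hc hp hb
  obtain ⟨n, hn⟩ := level_card hz hc hp hb
  obtain ⟨pl, hpl⟩ : ∃ pl : Fin d → InfinitePlace K, pl = fun i => dir_pl (σ i) := ⟨_, rfl⟩
  have hpli : ∀ i, pl i = dir_pl (σ i) := fun i => by rw [hpl]
  have hiff : ∀ i j, pl i = pl j ↔ b i = b j := by
    intro i j
    rw [← h2 i j, hpli, hpli]
    exact ⟨fun h => dir_pl_inj h, fun h => by rw [h]⟩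
  have hsurj : ∀ w : InfinitePlace K, ∃ i, pl i = w := by
    intro w
    obtain ⟨i, hi⟩ := h3 w.embedding
    refine ⟨i, ?_⟩
    rw [hpli]
    show InfinitePlace.mk (Complex.ofRealHom.comp (σ i)) = w
    rw [← hi, InfinitePlace.mk_embedding]
  choose r hr using hsurj
  have hmult : ∀ w : InfinitePlace K, w.mult = 1 := by
    intro w
    rw [← hr w, hpli]
    exact dir_mult _
  have hval : ∀ (w : InfinitePlace K) (i : Fin d), pl i = w → ∀ y : K, w y = |σ i y| := by
    intro w i hi y
    rw [← hi, hpli]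
    exact dir_pl_apply _ _
  obtain ⟨J, hJ⟩ : ∃ J : logSpace K →ₗ[ℝ] (Fin d → ℝ), J = LinearMap.pi (fun i =>
      if h : pl i ≠ w₀ then LinearMap.proj (⟨pl i, h⟩ : {w : InfinitePlace K // w ≠ w₀})
      else - ∑ w : {w : InfinitePlace K // w ≠ w₀}, LinearMap.proj w) := ⟨_, rfl⟩
  have hJa : ∀ (y : logSpace K) (i : Fin d) (h : pl i ≠ w₀), J y i = y ⟨pl i, h⟩ := by
    intro y i h
    rw [hJ, LinearMap.pi_apply, dif_pos h]
    rfl
  have hJb : ∀ (y : logSpace K) (i : Fin d), pl i = w₀ →
      J y i = - ∑ w : {w : InfinitePlace K // w ≠ w₀}, y w := by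
    intro y i h
    rw [hJ, LinearMap.pi_apply, dif_neg (by simpa using h), LinearMap.neg_apply,
      LinearMap.sum_apply]
    rfl
  have hJu : ∀ (u : (𝓞 K)ˣ) (i : Fin d), J (logEmbedding K (Additive.ofMul u)) i =
      Real.log (σ i (algebraMap (𝓞 K) K (u : 𝓞 K))) := by
    intro u i
    by_cases h : pl i = w₀
    · rw [hJb _ i h, sum_logEmbedding_component, hmult, hval _ i h, Real.log_abs]
      push_cast
      ring
    · rw [hJa _ i h, logEmbedding_component, hmult, hval _ i rfl, Real.log_abs]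
      push_cast
      ring
  have hJs : ∀ u : (𝓞 K)ˣ, J (logEmbedding K (Additive.ofMul u)) ∈ Submodule.span ℝ (LG z) := by
    intro u
    obtain ⟨e, he, hA, hAut⟩ := unit_aut hz h1 u
    have h4 : (fun i => Real.log ((σ i (algebraMap (𝓞 K) K (u : 𝓞 K))) ^ (2 * e))) ∈ LG z :=
      ⟨_, hA, hAut, rfl⟩
    have h5 : J (logEmbedding K (Additive.ofMul u)) = ((2 * e : ℕ) : ℝ)⁻¹ •
        (fun i => Real.log ((σ i (algebraMap (𝓞 K) K (u : 𝓞 K))) ^ (2 * e))) := by
      funext i
      have he' : ((2 * e : ℕ) : ℝ) ≠ 0 := by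
        have : 0 < 2 * e := by omega
        exact_mod_cast this.ne'
      rw [hJu, Pi.smul_apply, Real.log_pow, smul_eq_mul, ← mul_assoc, inv_mul_cancel₀ he', one_mul]
    rw [h5]
    exact Submodule.smul_mem _ _ (Submodule.subset_span h4)
  have hJt : ∀ y : logSpace K, J y ∈ Submodule.span ℝ (LG z) := by
    intro y
    have hy : y ∈ Submodule.span ℝ (unitLattice K : Set (logSpace K)) := by
      rw [unitLattice_span_eq_top]
      trivial
    refine Submodule.span_induction (p := fun y _ => J y ∈ Submodule.span ℝ (LG z)) ?_ ?_ ?_ ?_ hy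
    · rintro y ⟨u, -, rfl⟩
      exact hJs u.toMul
    · rw [map_zero]
      exact Submodule.zero_mem _
    · intro y y' _ _ h h'
      rw [map_add]
      exact Submodule.add_mem _ h h'
    · intro a y _ h
      rw [map_smul]
      exact Submodule.smul_mem _ _ h
  have hsum : ∑ w : InfinitePlace K, x (r w) = 0 := by
    have h4 : ∑ i, x i = ∑ w : InfinitePlace K, (n : ℝ) * x (r w) := by
      rw [← Finset.sum_fiberwise Finset.univ pl x]
      refine Finset.sum_congr rfl fun w _ => ?_
      have h5 : Finset.univ.filter (fun j => pl j = w) =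
          Finset.univ.filter (fun j => b j = b (r w)) := by
        ext j
        simp only [Finset.mem_filter, Finset.mem_univ, true_and]
        rw [← hiff, hr]
      rw [h5, ← hn (r w), ← nsmul_eq_mul, ← Finset.sum_const]
      refine Finset.sum_congr rfl fun j hj => ?_
      exact hx _ _ (Finset.mem_filter.1 hj).2
    rw [hx0, ← Finset.mul_sum] at h4
    refine (mul_eq_zero.1 h4.symm).resolve_left ?_
    have h6 : 0 < n := by
      rw [← hn ⟨0, hd⟩]
      exact Finset.card_pos.2 ⟨⟨0, hd⟩, by simp⟩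
    exact_mod_cast h6.ne'
  have hfin : J (fun w => x (r w.1)) = x := by
    funext i
    by_cases h : pl i = w₀
    · rw [hJb _ i h]
      have h7 := hsum
      rw [Fintype.sum_eq_add_sum_subtype_ne _ w₀] at h7
      have h8 : x i = x (r w₀) := hx _ _ ((hiff _ _).1 (by rw [hr, h]))
      linarith
    · rw [hJa _ i h]
      exact hx _ _ ((hiff _ _).1 (hr _))
  rw [← hfin]
  exact hJt _

end Pool.Agent.H46.IS
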