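import Pool.Agent.H46.IS.Dir
import Pool.Agent.H46.IS.App
import Pool.Agent.H46.RU.Mxb

/-!
# [H46 IS DNS] The quotients of two entries of the automorphs are dense (75 min)

`X = {log (a i0) - log (a j0) | a ∈ LL z}` is an additive subgroup of `ℝ` (`LL_mul`, `LL_inv`, `LL_one`).  If it is dense: done.
Otherwise it is cyclic (`AddSubgroup.dense_or_cyclic`), generated by `τ = log (a1 i0) - log (a1 j0)`, `a1 ∈ LL z`.  `L0 = {a ∈ LL z | a i0 = a j0}`
contains `1` and is closed under products; `max_sep` (RU/Mxb): `b0 ∈ L0`, all elements of `L0` are constant on the level sets of `b0`.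
Let `x1 = log a1` and let `W` be the set of the functions `f : Fin d → ℝ` for which there is `t` with `f - t • x1` constant on the level
sets of `b0`; it is a linear space which contains the constants.  Every `log a`, `a ∈ LL z`, is in `W`: the value of `a` is `k τ`,
so `a * a1 ^ (-k) ∈ L0`, `log a = log (a * a1 ^ (-k)) + k x1`.  By `dir_span` every function which is constant on the level sets of
`b` and has sum zero is in `W`; adding a constant, every function which is constant on the level sets of `b` is in `W`.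
The level sets of `b0` are unions of level sets of `b` (`hsep`); by `level_card` for `b` and for `b0` all level sets of `b` have the same size
`n`, those of `b0` the same size `n0`; the level set of `i0` for `b0` contains `j0`, which is not in its level set for `b`, so `n < n0`, and
for every `i` there is `i'` with `b0 i' = b0 i`, `b i' ≠ b i`.
For every `i` let `e_i k = 1` if `b k = b i` and `0` otherwise; `e_i ∈ W`: `e_i = y_i + t_i x1`, `y_i` constant on the level sets of `b0`.  `t_i ≠ 0`, because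
`e_i` differs at `i` and `i'`.  Take any `i1`, `i2 = i1'`, and `i3` with `b i3 ≠ b i1`, `b i3 ≠ b i2` (`b` has at least three values).  The function
`t_3 e_1 - t_1 e_3 = t_3 y_1 - t_1 y_3` is constant on the level sets of `b0`, its value at `i1` is `t_3`, at `i2` it is `0`, and
`b0 i1 = b0 i2`: so `t_3 = 0`, contradiction.
-/

set_option autoImplicit false

namespace Pool.Agent.H46.IS

open Matrix Pool.Agent.H89.CSD Pool.Agent.H46.RG Pool.Agent.H46.RU

variable {d : ℕ}

theorem dense_ratio {z : Matrix (Fin d) (Fin d) ℝ} (hz : z.det ≠ 0) {c : ℝ} (hc : 0 < c)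
    (hp : Pos c z) {b : Fin d → ℝ} (hb : Sz z b) (h3 : 3 ≤ (Finset.univ.image b).card)
    {i0 j0 : Fin d} (hij : b i0 ≠ b j0) (t ε : ℝ) (hε : 0 < ε) :
    ∃ a ∈ LL z, |Real.log (a i0) - Real.log (a j0) - t| < ε := by
  classical
  have hd : 0 < d := i0.pos
  by_contra hcon
  push Not at hcon
  let S : AddSubgroup ℝ :=
    { carrier := {x | ∃ a ∈ LL z, x = Real.log (a i0) - Real.log (a j0)}
      zero_mem' := ⟨1, LL_one z, by rw [Pi.one_apply, Pi.one_apply, sub_self]⟩
      add_mem' := by
        rintro _ _ ⟨a, ha, rfl⟩ ⟨a', ha', rfl⟩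
        refine ⟨a * a', LL_mul ha ha', ?_⟩
        rw [Pi.mul_apply, Pi.mul_apply, Real.log_mul (ha.1.1 _).ne' (ha'.1.1 _).ne',
          Real.log_mul (ha.1.1 _).ne' (ha'.1.1 _).ne']
        ring
      neg_mem' := by
        rintro _ ⟨a, ha, rfl⟩
        refine ⟨a⁻¹, LL_inv hz ha, ?_⟩
        rw [Pi.inv_apply, Pi.inv_apply, Real.log_inv, Real.log_inv]
        ring }
  have hSmem : ∀ x, x ∈ S ↔ ∃ a ∈ LL z, x = Real.log (a i0) - Real.log (a j0) := fun x => Iff.rfl
  rcases S.dense_or_cyclic with hS | ⟨τ, hS⟩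
  · obtain ⟨y, hyS, hy⟩ := hS.exists_dist_lt t hε
    obtain ⟨a, ha, rfl⟩ := (hSmem y).1 hyS
    have := hcon a ha
    rw [Real.dist_eq, abs_sub_comm] at hy
    linarith
  · have hτS : τ ∈ S := by
      rw [hS]
      exact AddSubgroup.mem_closure_singleton_self τ
    obtain ⟨a1, ha1, hτ⟩ := (hSmem τ).1 hτS
    have key : ∀ a ∈ LL z, ∃ k : ℤ, (k : ℝ) * τ = Real.log (a i0) - Real.log (a j0) := by
      intro a ha
      have h4 : Real.log (a i0) - Real.log (a j0) ∈ S := (hSmem _).2 ⟨a, ha, rfl⟩
      rw [hS] at h4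
      obtain ⟨k, hk⟩ := AddSubgroup.mem_closure_singleton.1 h4
      exact ⟨k, by rw [← hk, zsmul_eq_mul]⟩
    obtain ⟨b0, hb0, hsep⟩ := max_sep {a | a ∈ LL z ∧ a i0 = a j0} ⟨LL_one z, rfl⟩
      (fun a ha a' ha' => ⟨LL_mul ha.1 ha'.1, by rw [Pi.mul_apply, Pi.mul_apply, ha.2, ha'.2]⟩)
      (fun a ha i => ha.1.1.1 i)
    let W : Submodule ℝ (Fin d → ℝ) :=
      { carrier := {f | ∃ s : ℝ, ∀ i j, b0 i = b0 j →
          f i - s * Real.log (a1 i) = f j - s * Real.log (a1 j)}
        zero_mem' := ⟨0, fun i j _ => by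
          rw [Pi.zero_apply, Pi.zero_apply, zero_mul, zero_mul]⟩
        add_mem' := by
          rintro f g ⟨s, hs⟩ ⟨s', hs'⟩
          refine ⟨s + s', fun i j h => ?_⟩
          have e1 := hs i j h
          have e2 := hs' i j h
          rw [Pi.add_apply, Pi.add_apply]
          linarith
        smul_mem' := by
          rintro r f ⟨s, hs⟩
          refine ⟨r * s, fun i j h => ?_⟩
          have e1 := hs i j h
          rw [Pi.smul_apply, Pi.smul_apply, smul_eq_mul, smul_eq_mul, mul_assoc, mul_assoc,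
            ← mul_sub, ← mul_sub, e1] }
    have hWmem : ∀ f, f ∈ W ↔ ∃ s : ℝ, ∀ i j, b0 i = b0 j →
        f i - s * Real.log (a1 i) = f j - s * Real.log (a1 j) := fun f => Iff.rfl
    have hval : ∀ (a : Fin d → ℝ) (k : ℤ) (i : Fin d), a ∈ LL z →
        Real.log ((a * a1 ^ (-k)) i) = Real.log (a i) - k * Real.log (a1 i) := by
      intro a k i ha
      have h5 : (a1 i) ^ (-k) ≠ 0 := (zpow_pos (ha1.1.1 i) _).ne'
      rw [Pi.mul_apply, Pi.pow_apply, Real.log_mul (ha.1.1 i).ne' h5, Real.log_zpow]
      push_cast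
      ring
    have hLG : LG z ⊆ W := by
      rintro l ⟨a, haA, haut, rfl⟩
      have ha : a ∈ LL z := ⟨haA, haut⟩
      obtain ⟨k, hk⟩ := key a ha
      have h6 : a * a1 ^ (-k) ∈ LL z := LL_mul ha (LL_zpow hz ha1 _)
      have h7 : (a * a1 ^ (-k)) i0 = (a * a1 ^ (-k)) j0 := by
        apply Real.log_injOn_pos (h6.1.1 i0) (h6.1.1 j0)
        rw [hval a k i0 ha, hval a k j0 ha]
        rw [hτ] at hk
        linarith
      refine (hWmem _).2 ⟨k, fun i j h => ?_⟩
      have h8 := congrArg Real.log (hsep _ ⟨h6, h7⟩ i j h)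
      rw [hval a k i ha, hval a k j ha] at h8
      exact h8
    have hspan : Submodule.span ℝ (LG z) ≤ W := Submodule.span_le.2 hLG
    -- the indicator functions
    have hind : ∀ i, ∃ s : ℝ, ∀ k l, b0 k = b0 l →
        (if b k = b i then (1 : ℝ) else 0) - s * Real.log (a1 k) =
        (if b l = b i then (1 : ℝ) else 0) - s * Real.log (a1 l) := by
      intro i
      obtain ⟨m, hm⟩ : ∃ m : ℝ, m = (∑ k, if b k = b i then (1 : ℝ) else 0) / d := ⟨_, rfl⟩
      have h9 : (fun k => (if b k = b i then (1 : ℝ) else 0) - m) ∈ Submodule.span ℝ (LG z) := by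
        refine dir_span hd hz hc hp hb.1.2 (fun k l hkl => by rw [hkl]) ?_
        rw [Finset.sum_sub_distrib, Finset.sum_const, Finset.card_univ, Fintype.card_fin,
          nsmul_eq_mul, hm, mul_div_cancel₀, sub_self]
        exact_mod_cast hd.ne'
      obtain ⟨s, hs⟩ := (hWmem _).1 (hspan h9)
      refine ⟨s, fun k l hkl => ?_⟩
      have := hs k l hkl
      linarith
    obtain ⟨n, hn⟩ := level_card hz hc hp hb.1.2
    obtain ⟨n0, hn0⟩ := level_card hz hc hp hb0.1.2
    have hlt : n < n0 := by
      rw [← hn i0, ← hn0 i0]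
      apply Finset.card_lt_card
      rw [Finset.ssubset_iff_of_subset]
      · refine ⟨j0, ?_, ?_⟩
        · rw [Finset.mem_filter]
          exact ⟨Finset.mem_univ _, hb0.2.symm⟩
        · rw [Finset.mem_filter]
          rintro ⟨-, h⟩
          exact hij h.symm
      · intro j hj
        rw [Finset.mem_filter] at hj ⊢
        exact ⟨Finset.mem_univ _, hb.2 b0 hb0.1 _ _ hj.2⟩
    have hother : ∀ i, ∃ j, b0 j = b0 i ∧ b j ≠ b i := by
      intro i
      by_contra h
      push Not at h
      have : n0 ≤ n := by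
        rw [← hn i, ← hn0 i]
        apply Finset.card_le_card
        intro j hj
        rw [Finset.mem_filter] at hj ⊢
        exact ⟨Finset.mem_univ _, h j hj.2⟩
      omega
    obtain ⟨i3, hi3, hi3'⟩ : ∃ i3, b i3 ≠ b i0 ∧ b i3 ≠ b j0 := by
      by_contra h
      push Not at h
      have h10 : Finset.univ.image b ⊆ {b i0, b j0} := by
        intro y hy
        obtain ⟨i, -, rfl⟩ := Finset.mem_image.1 hy
        rw [Finset.mem_insert, Finset.mem_singleton]
        by_cases h11 : b i = b i0
        · exact Or.inl h11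
        · exact Or.inr (h i h11)
      have h12 := (Finset.card_le_card h10).trans Finset.card_le_two
      omega
    obtain ⟨s1, hs1⟩ := hind i0
    obtain ⟨s3, hs3⟩ := hind i3
    have e1 := hs1 i0 j0 hb0.2
    rw [if_pos rfl, if_neg (fun h => hij h.symm)] at e1
    have e3 := hs3 i0 j0 hb0.2
    rw [if_neg (fun h => hi3 h.symm), if_neg (fun h => hi3' h.symm)] at e3
    have e4 : s3 * τ = 0 := by rw [hτ]; linarith
    have e5 : s1 * τ = 1 := by rw [hτ]; linarith
    have e6 : τ ≠ 0 := by
      intro h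
      rw [h, mul_zero] at e5
      exact zero_ne_one e5
    have e7 : s3 = 0 := (mul_eq_zero.1 e4).resolve_right e6
    obtain ⟨j3, hj3, hj3'⟩ := hother i3
    have e8 := hs3 i3 j3 hj3.symm
    rw [if_pos rfl, if_neg hj3', e7] at e8
    linarith

end Pool.Agent.H46.IS
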