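import Pool.Agent.H46.IS.Str

/-!
# The automorphs are the same in the whole closed orbit
-/

set_option autoImplicit false

namespace Pool.Agent.H46.IS

open Matrix Filter Topology Pool.Agent.H89.CSD Pool.Agent.H46.RG Pool.Agent.H46.RU
  Pool.Agent.H46.MM Pool.Agent.H81.GF

variable {d : ℕ}

/-- A matrix which commutes with `diag (b)` commutes with `diag (a)` if `a` is constant on the level
sets of `b`. -/
theorem comm_of_comm {C : Matrix (Fin d) (Fin d) ℝ} {a b : Fin d → ℝ}
    (h : diagonal b * C = C * diagonal b) (hab : ∀ i j, b i = b j → a i = a j) :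
    diagonal a * C = C * diagonal a := by
  ext i j
  have h1 := congrFun (congrFun h i) j
  rw [diagonal_mul, mul_diagonal] at h1
  rw [diagonal_mul, mul_diagonal]
  by_cases h2 : b i = b j
  · rw [hab i j h2, mul_comm]
  · have h3 : (b i - b j) * C i j = 0 := by
      rw [sub_mul, h1]
      ring
    rcases mul_eq_zero.1 h3 with h4 | h4
    · exact absurd (sub_eq_zero.1 h4) h2
    · rw [h4, mul_zero, zero_mul]

/-- If `b` is an automorph of `g` then every automorph of `z ∈ Om g` which is constant on the level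
sets of `b` is an automorph of `g`. -/
theorem LL_of_const {g : Matrix (Fin d) (Fin d) ℝ} (hg : g.det ≠ 0)
    {z : Matrix (Fin d) (Fin d) ℝ} (hz : z ∈ Om g) {a b : Fin d → ℝ} (hb : b ∈ LL g)
    (hab : ∀ i j, b i = b j → a i = a j) (ha : a ∈ LL z) : a ∈ LL g := by
  obtain ⟨y, hy1, hy2, hy3⟩ := near hg hz
  have hz0 : z.det ≠ 0 := Om_det_ne hg hz
  have hby : ∀ n, diagonal b ∈ Aut (y n) := fun n => (hy3 n b).2 hb.2
  choose U hU using hby
  have hdet : Tendsto (fun n => (y n).det) atTop (𝓝 z.det) :=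
    (continuous_det'.tendsto z).comp hy2
  have hne : ∀ᶠ n in atTop, (y n).det ≠ 0 := hdet.eventually_ne hz0
  have h1 : Tendsto (fun n => (y n)⁻¹ * (diagonal b * y n)) atTop (𝓝 (z⁻¹ * (diagonal b * z))) :=
    Filter.Tendsto.mul ((continuousAt_inv hz0).tendsto.comp hy2) (tendsto_const_nhds.mul hy2)
  have h2 : Tendsto (fun n => im (U n : Matrix (Fin d) (Fin d) ℤ)) atTop
      (𝓝 (z⁻¹ * (diagonal b * z))) := by
    refine h1.congr' ?_
    filter_upwards [hne] with n hn
    rw [hU n, ← Matrix.mul_assoc, Matrix.nonsing_inv_mul _ (isUnit_iff_ne_zero.2 hn),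
      Matrix.one_mul]
  obtain ⟨V, hV, hev⟩ := units_tendsto h2
  obtain ⟨n, hn, hnd⟩ := (hev.and hne).exists
  have huz : IsUnit z.det := isUnit_iff_ne_zero.2 hz0
  have huy : IsUnit (y n).det := isUnit_iff_ne_zero.2 hnd
  -- `diag (b)` has the same matrix for `y n` and `z`
  have hbz : diagonal b * z = z * im (V : Matrix (Fin d) (Fin d) ℤ) := by
    rw [hV, ← Matrix.mul_assoc, Matrix.mul_nonsing_inv _ huz, Matrix.one_mul]
  have hby : diagonal b * y n = y n * im (V : Matrix (Fin d) (Fin d) ℤ) := by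
    rw [hU n, hn]
  have hcom : diagonal b * (y n * z⁻¹) = y n * z⁻¹ * diagonal b := by
    have h3 : y n * z⁻¹ * diagonal b * z = y n * im (V : Matrix (Fin d) (Fin d) ℤ) := by
      rw [Matrix.mul_assoc, hbz, Matrix.mul_assoc, ← Matrix.mul_assoc z⁻¹,
        Matrix.nonsing_inv_mul _ huz, Matrix.one_mul]
    have h4 : diagonal b * (y n * z⁻¹) * z = y n * im (V : Matrix (Fin d) (Fin d) ℤ) := by
      rw [Matrix.mul_assoc, Matrix.mul_assoc, Matrix.nonsing_inv_mul _ huz, Matrix.mul_one, hby]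
    calc diagonal b * (y n * z⁻¹) = diagonal b * (y n * z⁻¹) * z * z⁻¹ := by
          rw [Matrix.mul_assoc _ z, Matrix.mul_nonsing_inv _ huz, Matrix.mul_one]
      _ = y n * z⁻¹ * diagonal b * z * z⁻¹ := by rw [h4, h3]
      _ = y n * z⁻¹ * diagonal b := by
          rw [Matrix.mul_assoc _ z, Matrix.mul_nonsing_inv _ huz, Matrix.mul_one]
  have hcom' := comm_of_comm hcom hab
  obtain ⟨W, hW⟩ := ha.2
  refine ⟨ha.1, (hy3 n a).1 ⟨W, ?_⟩⟩
  calc diagonal a * y n = diagonal a * (y n * z⁻¹) * z := by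
        rw [Matrix.mul_assoc, Matrix.mul_assoc, Matrix.nonsing_inv_mul _ huz, Matrix.mul_one]
    _ = y n * z⁻¹ * (diagonal a * z) := by rw [hcom', Matrix.mul_assoc]
    _ = y n * im (W : Matrix (Fin d) (Fin d) ℤ) := by
        rw [hW, Matrix.mul_assoc, ← Matrix.mul_assoc z⁻¹, Matrix.nonsing_inv_mul _ huz,
          Matrix.one_mul]

/-- THEOREM S: the automorphs are the same in the closed orbit. -/
theorem LL_const (hd : 3 ≤ d) {g : Matrix (Fin d) (Fin d) ℝ} (hg : g.det ≠ 0) {c : ℝ}
    (hc : 0 < c) (hp : Pos c g) {b : Fin d → ℝ} (hb : Sz g b)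
    (hcase : Odd d ∨ 2 ≤ (Finset.univ.image b).card) {z : Matrix (Fin d) (Fin d) ℝ}
    (hz : z ∈ Om g) : LL z = LL g := by
  obtain ⟨-, h2⟩ := classes_const hd hg hc hp hb hcase
  refine Set.Subset.antisymm (fun a ha => ?_) (LL_mono hg hz)
  exact LL_of_const hg hz hb.1 (fun i j hij => h2 z hz a ha.1 ha.2 i j hij) ha

/-- The number of values of an automorph in the closed orbit. -/
theorem card_le_Mx (hd : 3 ≤ d) {g : Matrix (Fin d) (Fin d) ℝ} (hg : g.det ≠ 0) {c : ℝ}
    (hc : 0 < c) (hp : Pos c g) {b : Fin d → ℝ} (hb : Sz g b)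
    {z : Matrix (Fin d) (Fin d) ℝ} (hz : z ∈ Om g) {a : Fin d → ℝ} (ha : a ∈ LL z) :
    (Finset.univ.image a).card ≤ Mx b := by
  classical
  have key : ∀ b' : Fin d → ℝ, (∀ i j, b' i = b' j → a i = a j) →
      (Finset.univ.image a).card ≤ (Finset.univ.image b').card := by
    intro b' hb'
    obtain ⟨f, hf⟩ : ∃ f : ℝ → ℝ, ∀ i, f (b' i) = a i := by
      refine ⟨fun r => if h : ∃ i, b' i = r then a h.choose else 0, fun i => ?_⟩
      have h1 : ∃ k, b' k = b' i := ⟨i, rfl⟩
      beta_reduce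
      rw [dif_pos h1]
      exact hb' _ _ h1.choose_spec
    have h2 : Finset.univ.image a = (Finset.univ.image b').image f := by
      rw [Finset.image_image]
      congr 1
      ext i
      exact (hf i).symm
    rw [h2]
    exact Finset.card_image_le
  by_cases hcase : Odd d ∨ 2 ≤ (Finset.univ.image b).card
  · obtain ⟨-, h2⟩ := classes_const hd hg hc hp hb hcase
    have h3 := key b (fun i j hij => h2 z hz a ha.1 ha.2 i j hij)
    refine h3.trans ?_
    unfold Mx
    split_ifs
    · exact le_max_right _ _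
    · exact le_rfl
  · rw [not_or, Nat.not_odd_iff_even, not_le] at hcase
    obtain ⟨bz, hbz⟩ := exists_Sz z
    have h3 := two_classes hg hc hp hb (by omega) hz hbz
    have h4 := key bz (fun i j hij => hbz.2 a ha i j hij)
    unfold Mx
    rw [if_pos hcase.1]
    exact (h4.trans h3).trans (le_max_left _ _)

end Pool.Agent.H46.IS
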