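import Pool.Agent.H46.IS.Defs

/-!
# [H46 IS FLD] The field of a diagonal automorph (75 min)

`diag(b) z = z im U`, `M = U` over `ℚ`.  As in `RU/Siz.lean` (copy the beginning of the proof of `level_card`: `hrow`, `hchar`, `key`,
`hint`, `hirr`, `hμ0`): `μ = minpoly ℚ (b i0)` is irreducible and `μ (b i) = 0` for all `i`.  `z μ(M) = μ(diag b) z = 0`, so `μ (M) = 0`
(`aeval` of a polynomial at a diagonal matrix: `Matrix.diagonalAlgHom` or by `row_aeval`).
`K = AdjoinRoot μ` with `Fact (Irreducible μ)`; it is a field of characteristic zero and finite over `ℚ` (`AdjoinRoot.powerBasis`), so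
`NumberField K`.  `σ i = AdjoinRoot.lift (algebraMap ℚ ℝ) (b i) _`, `Φ = AdjoinRoot.lift (algebraMap ℚ (Matrix …)) M _` (or `liftAlgHom`;
if the noncommutativity of the matrices is a problem: `AdjoinRoot.liftAlgHom`/`Ideal.Quotient.lift` of `Polynomial.aeval M`, which is a ring
hom from the commutative ring `ℚ[X]` to the matrices).
(1) For `x = mk p`: `diag (p (b i)) z = z p(M)`: the rows of `z` are left eigenvectors of `M` (`row_aeval`) or induction on `p`.
(2) `σ i = σ j` iff `b i = b j` (evaluate at the root; conversely the definitions agree).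
(3) For `φ : K →+* ℂ` the number `φ θ` is a root of `μ`, and `μ ∣ charpoly M` (or: `φ θ` is a root of `charpoly M` because `charpoly M` is a
multiple of `μ`: `minpoly.dvd`), and over `ℂ` `charpoly M = ∏ (X - b i)` (`hchar`), so `φ θ = b i` for some `i`; two ring homs from
`K` which agree on `ℚ` and at `θ` are equal (`AdjoinRoot` extensionality, or for `x = mk p`).
-/

set_option autoImplicit false

namespace Pool.Agent.H46.IS

open Matrix Pool.Agent.H89.CSD Pool.Agent.H46.RG Pool.Agent.H46.RU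

variable {d : ℕ}

open Polynomial in
private theorem fld_ext {μ : ℚ[X]} {S : Type*} [CommRing S] (f g : AdjoinRoot μ →+* S)
    (h : f (AdjoinRoot.root μ) = g (AdjoinRoot.root μ)) : f = g := by
  have h1 : f.comp (AdjoinRoot.mk μ) = g.comp (AdjoinRoot.mk μ) := by
    apply Polynomial.ringHom_ext'
    · exact Subsingleton.elim _ _
    · simpa using h
  exact (RingHom.cancel_right AdjoinRoot.mk_surjective).1 h1

open Polynomial in
private theorem fld_pol (hd : 0 < d) {z : Matrix (Fin d) (Fin d) ℝ} (hz : z.det ≠ 0) {c : ℝ}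
    (hc : 0 < c) (hp : Pos c z) {a : Fin d → ℝ} (ha : diagonal a ∈ Aut z) :
    ∃ (M : Matrix (Fin d) (Fin d) ℚ) (μ : ℚ[X]), Irreducible μ ∧ μ.Monic ∧ aeval M μ = 0 ∧
      (∀ i, (μ.map (algebraMap ℚ ℝ)).eval (a i) = 0) ∧
      (∀ (r : ℚ[X]) (i k : Fin d), (r.map (algebraMap ℚ ℝ)).eval (a i) * z i k =
        (z * (aeval M r).map (algebraMap ℚ ℝ)) i k) ∧
      ∀ x : ℂ, (μ.map (algebraMap ℚ ℂ)).eval x = 0 → ∃ i, x = (a i : ℂ) := by
  classical
  obtain ⟨U, hU⟩ := ha
  obtain ⟨T, hT⟩ : ∃ T : Matrix (Fin d) (Fin d) ℤ, T = (U : Matrix (Fin d) (Fin d) ℤ) := ⟨_, rfl⟩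
  rw [← hT] at hU
  have hrow : ∀ i, vecMul (z i) (im T) = a i • z i := by
    intro i
    have h1 := congrFun hU.symm i
    ext j
    have h2 := congrFun h1 j
    rw [Matrix.diagonal_mul] at h2
    simpa [Matrix.mul_apply, vecMul, dotProduct] using h2
  set M : Matrix (Fin d) (Fin d) ℚ := T.map (Int.cast : ℤ → ℚ) with hM
  have hMim : M.map (algebraMap ℚ ℝ) = im T := by
    ext i j
    simp [hM, im]
  have hchar : M.charpoly.map (algebraMap ℚ ℝ) = ∏ i, (X - C (a i)) := by
    rw [← Matrix.charpoly_map, hMim, ← Matrix.charpoly_diagonal]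
    have hzu : IsUnit z := (Matrix.isUnit_iff_isUnit_det z).2 (isUnit_iff_ne_zero.2 hz)
    obtain ⟨w, rfl⟩ := hzu
    have h1 : im T = (w⁻¹).val * diagonal a * w.val := by
      rw [mul_assoc, hU, ← mul_assoc, Units.inv_mul, one_mul]
    rw [h1, Matrix.coe_units_inv, Matrix.charpoly_units_conj']
  have key : ∀ (p : ℚ[X]) (i : Fin d), (p.map (algebraMap ℚ ℝ)).eval (a i) = 0 →
      aeval M p = 0 := by
    intro p i h0
    have h1 : ∀ v : Fin d → ℚ, (aeval M p) *ᵥ v = 0 := by
      intro v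
      by_contra hv
      have h2 := row_ne_zero hc hp hv i
      apply h2
      have h3 := row_aeval hrow i p v
      rw [← hM] at h3
      rw [h3, h0, zero_mul]
    ext i j
    have h2 := congrFun (h1 (Pi.single j 1)) i
    rw [Matrix.mulVec_single_one] at h2
    exact h2
  have key2 : ∀ (p : ℚ[X]) (j : Fin d), aeval M p = 0 → (p.map (algebraMap ℚ ℝ)).eval (a j) = 0 := by
    intro p j h0
    set v0 : Fin d → ℚ := Pi.single ⟨0, hd⟩ 1 with hv0
    have hv00 : v0 ≠ 0 := by
      intro h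
      have := congrFun h ⟨0, hd⟩
      simp [hv0] at this
    have h4 := row_aeval hrow j p v0
    rw [← hM, h0, Matrix.zero_mulVec] at h4
    have h5 : rc (0 : Fin d → ℚ) = 0 := by
      ext k
      simp [rc]
    rw [h5, Matrix.mulVec_zero, Pi.zero_apply] at h4
    rcases mul_eq_zero.1 h4.symm with h | h
    · exact h
    · exact absurd h (row_ne_zero hc hp hv00 j)
  set i0 : Fin d := ⟨0, hd⟩ with hi0
  have hchar0 : ∀ i, (M.charpoly.map (algebraMap ℚ ℝ)).eval (a i) = 0 := by
    intro i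
    rw [hchar, Polynomial.eval_prod]
    exact Finset.prod_eq_zero (Finset.mem_univ i) (by simp)
  have hint : IsIntegral ℚ (a i0) := by
    refine ⟨M.charpoly, Matrix.charpoly_monic M, ?_⟩
    rw [← Polynomial.eval_map]
    exact hchar0 i0
  have hμi0 : ((minpoly ℚ (a i0)).map (algebraMap ℚ ℝ)).eval (a i0) = 0 := by
    rw [Polynomial.eval_map]
    exact minpoly.aeval ℚ (a i0)
  have hμM := key _ i0 hμi0
  refine ⟨M, minpoly ℚ (a i0), minpoly.irreducible hint, minpoly.monic hint, hμM,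
    fun i => key2 _ i hμM, ?_, ?_⟩
  · intro r i k
    have h1 := row_aeval hrow i r (Pi.single k 1)
    rw [← hM, Matrix.mulVec_single_one] at h1
    have h2 : (z *ᵥ rc (Pi.single k 1)) i = z i k := by
      have e : rc (Pi.single k 1 : Fin d → ℚ) = Pi.single k 1 := by
        ext j
        by_cases hj : j = k
        · subst hj
          simp [rc]
        · simp [rc, hj]
      rw [e, Matrix.mulVec_single_one]
      rfl
    rw [h2] at h1
    rw [← h1, Matrix.mul_apply]
    rfl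
  · intro x hx
    have h1 : minpoly ℚ (a i0) ∣ M.charpoly := by
      apply minpoly.dvd
      have := hchar0 i0
      rwa [Polynomial.eval_map] at this
    obtain ⟨r, hr⟩ := h1
    have h2 : (M.charpoly.map (algebraMap ℚ ℂ)).eval x = 0 := by
      rw [hr, Polynomial.map_mul, Polynomial.eval_mul, hx, zero_mul]
    have h3 : M.charpoly.map (algebraMap ℚ ℂ) = ∏ i, (X - C (a i : ℂ)) := by
      have e : (algebraMap ℚ ℂ) = Complex.ofRealHom.comp (algebraMap ℚ ℝ) := Subsingleton.elim _ _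
      rw [e, ← Polynomial.map_map, hchar, Polynomial.map_prod]
      refine Finset.prod_congr rfl fun i _ => ?_
      simp
    rw [h3, Polynomial.eval_prod] at h2
    obtain ⟨i, -, hi⟩ := Finset.prod_eq_zero_iff.1 h2
    rw [Polynomial.eval_sub, Polynomial.eval_X, Polynomial.eval_C] at hi
    exact ⟨i, sub_eq_zero.1 hi⟩

open Polynomial in
theorem field_data (hd : 0 < d) {z : Matrix (Fin d) (Fin d) ℝ} (hz : z.det ≠ 0) {c : ℝ}
    (hc : 0 < c) (hp : Pos c z) {b : Fin d → ℝ} (hb : diagonal b ∈ Aut z) :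
    ∃ (K : Type) (_ : Field K) (_ : NumberField K) (σ : Fin d → K →+* ℝ)
      (Φ : K →+* Matrix (Fin d) (Fin d) ℚ),
      (∀ x : K, diagonal (fun i => σ i x) * z = z * (Φ x).map (algebraMap ℚ ℝ)) ∧
      (∀ i j, σ i = σ j ↔ b i = b j) ∧
      ∀ φ : K →+* ℂ, ∃ i, φ = Complex.ofRealHom.comp (σ i) := by
  obtain ⟨M, μ, hirr, hmon, hM, hroot, hmul, hC⟩ := fld_pol hd hz hc hp hb
  haveI : Fact (Irreducible μ) := ⟨hirr⟩
  haveI hfin : Module.Finite ℚ (AdjoinRoot μ) := (AdjoinRoot.powerBasis hirr.ne_zero).finite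
  haveI : CharZero (AdjoinRoot μ) := algebraRat.charZero _
  have hr : ∀ i, μ.eval₂ (algebraMap ℚ ℝ) (b i) = 0 := by
    intro i
    rw [← Polynomial.eval_map]
    exact hroot i
  have hI : ∀ p ∈ Ideal.span {μ}, (aeval M : ℚ[X] →ₐ[ℚ] Matrix (Fin d) (Fin d) ℚ).toRingHom p = 0 := by
    intro p hp
    obtain ⟨q, rfl⟩ := Ideal.mem_span_singleton.1 hp
    show aeval M (μ * q) = 0
    rw [map_mul, hM, zero_mul]
  obtain ⟨Φ, hΦ⟩ : ∃ Φ : AdjoinRoot μ →+* Matrix (Fin d) (Fin d) ℚ,
      ∀ p, Φ (AdjoinRoot.mk μ p) = aeval M p :=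
    ⟨Ideal.Quotient.lift (Ideal.span {μ}) (aeval M : ℚ[X] →ₐ[ℚ] Matrix (Fin d) (Fin d) ℚ).toRingHom hI,
      fun p => Ideal.Quotient.lift_mk _ _ _⟩
  refine ⟨AdjoinRoot μ, inferInstance, ⟨⟩, fun i => AdjoinRoot.lift (algebraMap ℚ ℝ) (b i) (hr i), Φ,
    ?_, ?_, ?_⟩
  · intro x
    obtain ⟨p, rfl⟩ := AdjoinRoot.mk_surjective x
    ext i k
    rw [hΦ, ← hmul, Matrix.diagonal_mul, AdjoinRoot.lift_mk, Polynomial.eval_map]
  · intro i j
    constructor
    · intro h
      have h1 := congrArg (fun f : AdjoinRoot μ →+* ℝ => f (AdjoinRoot.root μ)) h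
      simpa only [AdjoinRoot.lift_root] using h1
    · intro h
      apply fld_ext
      rw [AdjoinRoot.lift_root, AdjoinRoot.lift_root, h]
  · intro φ
    have h1 : (μ.map (algebraMap ℚ ℂ)).eval (φ (AdjoinRoot.root μ)) = 0 := by
      have e : algebraMap ℚ ℂ = φ.comp (AdjoinRoot.of μ) := Subsingleton.elim _ _
      rw [Polynomial.eval_map, e, ← Polynomial.hom_eval₂, AdjoinRoot.eval₂_root, map_zero]
    obtain ⟨i, hi⟩ := hC _ h1
    refine ⟨i, ?_⟩
    apply fld_ext
    rw [hi, RingHom.comp_apply, AdjoinRoot.lift_root]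
    rfl

end Pool.Agent.H46.IS
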