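import Pool.Agent.H46.IS.Deg
import Pool.Agent.H46.IS.Dir

/-!
# [H46 IS ONE] Reduction to one block (75 min)

Strong induction on the number of the entries `(k, l)` with `v k l ≠ 0`.  Choose `v k l ≠ 0`.  If all nonzero entries of `v` have
`b` equal to `b k` at the row and `b l` at the column: done with `β = b k`, `γ = b l`.  Otherwise there are `k', l'` with `v k' l' ≠ 0` and
(`b k' ≠ b k` or `b l' ≠ b l`).
Let `w1 i = 1` if `b i = b k'` and `0` otherwise, in the case `b k' ≠ b k`; and `w1 i = -1` if `b i = b l'` and `0` otherwise in the case `b k' = b k`,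
`b l' ≠ b l`.  Then `w1 k' - w1 l' = 1` and `w1 k - w1 l ≤ 0` (remember `b l < b k`, `b l' < b k'`).
Let `ρ` be the maximum over the nonzero entries `(p, q)` of `v` of `(w1 p - w1 q) / (log (b p) - log (b q))` (the denominators are positive,
`b q < b p`); `ρ > 0` because of `(k', l')`.  Let `w2 = w1 - ρ • log b` and `w i = w2 i - (∑ w2) / d`.  `w` is constant on the level sets of `b`, has sum
zero, `w p ≤ w q` for all nonzero entries of `v`, with equality for some entry (the maximum) and not for `(k, l)` (`(w1 k - w1 l) / (…) ≤ 0 < ρ`).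
`dir_span`, `approx_dir`, `degen_z`: `v'` with the nonzero entries of `v` where `w p = w q`: fewer, but at least one; `v' ≠ 0`; apply the
induction hypothesis.
-/

set_option autoImplicit false

namespace Pool.Agent.H46.IS

open Matrix Filter Topology Pool.Agent.H89.CSD Pool.Agent.H46.RG Pool.Agent.H46.RU

variable {d : ℕ}

theorem one_block {g : Matrix (Fin d) (Fin d) ℝ} (hg : g.det ≠ 0) {c : ℝ} (hc : 0 < c)
    (hp : Pos c g) {z : Matrix (Fin d) (Fin d) ℝ} (hz : z ∈ Om g) {b : Fin d → ℝ}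
    (hb : b ∈ LL z) (n : ℕ) :
    ∀ v : Matrix (Fin d) (Fin d) ℝ,
      (Finset.univ.filter fun p : Fin d × Fin d => v p.1 p.2 ≠ 0).card = n → v ≠ 0 →
      (∀ k l, v k l ≠ 0 → b l < b k) → (1 + v) * z ∈ Om g →
      ∃ v' : Matrix (Fin d) (Fin d) ℝ, v' ≠ 0 ∧ (1 + v') * z ∈ Om g ∧
        ∃ β γ : ℝ, γ < β ∧ ∀ k l, v' k l ≠ 0 → b k = β ∧ b l = γ := by
  classical
  have hzd : z.det ≠ 0 := Om_det_ne hg hz
  have hpos : ∀ i, 0 < b i := hb.1.1
  induction n using Nat.strong_induction_on with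
  | _ n ih =>
    intro v hcard hv hvb hvz
    obtain ⟨k, l, hkl⟩ : ∃ k l, v k l ≠ 0 := by
      by_contra hcon
      push Not at hcon
      exact hv (Matrix.ext fun i j => hcon i j)
    by_cases hall : ∀ k' l', v k' l' ≠ 0 → b k' = b k ∧ b l' = b l
    · exact ⟨v, hv, hvz, b k, b l, hvb k l hkl, hall⟩
    push Not at hall
    obtain ⟨k', l', hkl', hne⟩ := hall
    obtain ⟨w1, hw1, hw2, hw3⟩ : ∃ w1 : Fin d → ℝ, (∀ i j, b i = b j → w1 i = w1 j) ∧
        0 < w1 k' - w1 l' ∧ w1 k - w1 l ≤ 0 := by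
      have hb' := hvb k' l' hkl'
      by_cases h1 : b k' = b k
      · have h2 : b l' ≠ b l := hne h1
        refine ⟨fun i => if b i = b l' then -1 else 0, ?_, ?_, ?_⟩
        · intro i j hij
          simp only [hij]
        · show 0 < (if b k' = b l' then (-1 : ℝ) else 0) - (if b l' = b l' then (-1 : ℝ) else 0)
          rw [if_neg hb'.ne', if_pos rfl]
          norm_num
        · show (if b k = b l' then (-1 : ℝ) else 0) - (if b l = b l' then (-1 : ℝ) else 0) ≤ 0
          rw [if_neg (h1 ▸ hb'.ne'), if_neg (Ne.symm h2)]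
          norm_num
      · refine ⟨fun i => if b i = b k' then 1 else 0, ?_, ?_, ?_⟩
        · intro i j hij
          simp only [hij]
        · show 0 < (if b k' = b k' then (1 : ℝ) else 0) - (if b l' = b k' then (1 : ℝ) else 0)
          rw [if_neg hb'.ne, if_pos rfl]
          norm_num
        · show (if b k = b k' then (1 : ℝ) else 0) - (if b l = b k' then (1 : ℝ) else 0) ≤ 0
          rw [if_neg (Ne.symm h1)]
          split_ifs <;> norm_num
    have hlog : ∀ p : Fin d × Fin d, v p.1 p.2 ≠ 0 →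
        0 < Real.log (b p.1) - Real.log (b p.2) := fun p hp =>
      sub_pos.2 (Real.log_lt_log (hpos _) (hvb _ _ hp))
    obtain ⟨p0, hp0, hmax⟩ := Finset.exists_max_image
      (Finset.univ.filter fun p : Fin d × Fin d => v p.1 p.2 ≠ 0)
      (fun p => (w1 p.1 - w1 p.2) / (Real.log (b p.1) - Real.log (b p.2)))
      ⟨(k, l), Finset.mem_filter.2 ⟨Finset.mem_univ _, hkl⟩⟩
    have hp0' : v p0.1 p0.2 ≠ 0 := (Finset.mem_filter.1 hp0).2
    obtain ⟨ρ, hρ⟩ : ∃ ρ : ℝ, ρ = (w1 p0.1 - w1 p0.2) /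
      (Real.log (b p0.1) - Real.log (b p0.2)) := ⟨_, rfl⟩
    have hρ0 : 0 < ρ := by
      have h1 := hmax (k', l') (Finset.mem_filter.2 ⟨Finset.mem_univ _, hkl'⟩)
      rw [hρ]
      exact lt_of_lt_of_le (div_pos hw2 (hlog (k', l') hkl')) h1
    have hd : 0 < d := lt_of_le_of_lt (Nat.zero_le _) k.2
    have hdR : (d : ℝ) ≠ 0 := by exact_mod_cast hd.ne'
    obtain ⟨s, hs⟩ : ∃ s : ℝ, s = (∑ i, (w1 i - ρ * Real.log (b i))) / d := ⟨_, rfl⟩
    obtain ⟨w, hw⟩ : ∃ w : Fin d → ℝ, ∀ i, w i = w1 i - ρ * Real.log (b i) - s :=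
      ⟨fun i => w1 i - ρ * Real.log (b i) - s, fun i => rfl⟩
    have hwlev : ∀ i j, b i = b j → w i = w j := by
      intro i j hij
      rw [hw, hw, hw1 i j hij, hij]
    have hwsum : ∑ i, w i = 0 := by
      simp only [hw]
      rw [Finset.sum_sub_distrib, Finset.sum_const, Finset.card_univ, Fintype.card_fin,
        nsmul_eq_mul, hs, mul_div_cancel₀ _ hdR, sub_self]
    have hwle : ∀ p : Fin d × Fin d, v p.1 p.2 ≠ 0 → w p.1 ≤ w p.2 := by
      intro p hp
      have h1 := hmax p (Finset.mem_filter.2 ⟨Finset.mem_univ _, hp⟩)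
      rw [← hρ, div_le_iff₀ (hlog p hp)] at h1
      rw [hw, hw]
      linarith
    have hw0 : w p0.1 = w p0.2 := by
      have h1 := (hlog p0 hp0').ne'
      have h2 : ρ * (Real.log (b p0.1) - Real.log (b p0.2)) = w1 p0.1 - w1 p0.2 := by
        rw [hρ, div_mul_cancel₀ _ h1]
      rw [hw, hw]
      linarith
    have hwkl : w k < w l := by
      have h1 : 0 < ρ * (Real.log (b k) - Real.log (b l)) := mul_pos hρ0 (hlog (k, l) hkl)
      rw [hw, hw]
      linarith
    have hspan := dir_span hd hzd hc (Om_pos hg hc hp hz) hb.2 hwlev hwsum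
    obtain ⟨C, hC⟩ := approx_dir hzd hspan
    obtain ⟨v', hv'1, hv'2⟩ := degen_z hg hvz hC fun i j hij => hwle (i, j) hij
    have hlt : (Finset.univ.filter fun p : Fin d × Fin d => v' p.1 p.2 ≠ 0).card < n := by
      rw [← hcard]
      apply Finset.card_lt_card
      refine ⟨?_, ?_⟩
      · intro p hp
        have h1 := (Finset.mem_filter.1 hp).2
        exact Finset.mem_filter.2 ⟨Finset.mem_univ _, ((hv'2 p.1 p.2).1 h1).1⟩
      · intro hsub
        have h1 : (k, l) ∈ Finset.univ.filter fun p : Fin d × Fin d => v' p.1 p.2 ≠ 0 :=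
          hsub (Finset.mem_filter.2 ⟨Finset.mem_univ _, hkl⟩)
        have h2 := ((hv'2 k l).1 (Finset.mem_filter.1 h1).2).2
        exact hwkl.ne h2
    refine ih _ hlt v' rfl ?_ ?_ hv'1
    · intro h0
      have h1 := (hv'2 p0.1 p0.2).2 ⟨hp0', hw0⟩
      rw [h0] at h1
      exact h1 rfl
    · intro i j hij
      exact hvb i j ((hv'2 i j).1 hij).1

end Pool.Agent.H46.IS
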