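import Pool.Agent.H46.IS.Mga
import Pool.Agent.H46.IS.One
import Pool.Agent.H46.IS.Dns

/-!
# [H46 IS ISN] Isolation (60 min)

By contradiction: `diagonal b ∉ Aut (y n)` for infinitely many `n`; pass to a subsequence (`Filter.extraction_of_frequently_atTop`): for all
`n`.  `magnify_b`: `b'`, `v`; `one_block` (for `b'`): `v'`, `β`, `γ`.  Choose `i, j` with `v' i j ≠ 0`; `b' i = β ≠ γ = b' j`, so `b i ≠ b j`.
For `a ∈ LL z`: `a` is constant on the level sets of `b` (`hb.2`), which are those of `b'`, so `diag(a) v' diag(a)⁻¹ = (a i / a j) • v'`, and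
`(1 + (a i / a j) • v') z = diag(a) (1 + v') diag(a)⁻¹ z ∈ Om g` (`diag(a)⁻¹ z = z V` with a unit `V`; `Om_inv`).
For `s > 0` `dense_ratio` (`t = log s`, `ε = 1 / (n + 1)`) gives `a n ∈ LL z` with `a n i / a n j → s` (`Real.exp`), `Om g` is closed:
`(1 + s • v') z ∈ Om g`; also for `s = 0`.  `v' * v' = 0` (columns with `b' = γ`, rows with `b' = β`), so `exp (s • v') = 1 + s • v'`
(`NormedSpace.exp_eq_tsum`, or `IsNilpotent.exp`; all terms from the second power on vanish).  `zcr` (RU/Zcr) with `X = v'`: the products do not vanish by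
`Om_pos` (`0 < c ≤ |P …|`), so `v' i j = 0` (`i ≠ j`), contradiction.
-/

set_option autoImplicit false

namespace Pool.Agent.H46.IS

open Matrix Filter Topology Pool.Agent.H89.CSD Pool.Agent.H46.RG Pool.Agent.H46.RU

variable {d : ℕ}

private theorem exp_sq {X : Matrix (Fin d) (Fin d) ℝ} (hX : X * X = 0) :
    NormedSpace.exp X = 1 + X := by
  rw [NormedSpace.exp_eq_tsum ℝ]
  show ∑' n : ℕ, ((n.factorial : ℝ)⁻¹) • X ^ n = 1 + X
  rw [tsum_eq_sum (s := Finset.range 2)]
  · rw [Finset.sum_range_succ, Finset.sum_range_one]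
    simp
  · intro n hn
    rw [Finset.mem_range, not_lt] at hn
    obtain ⟨k, rfl⟩ := Nat.exists_eq_add_of_le hn
    rw [pow_add, pow_two, hX, zero_mul, smul_zero]

theorem isolated {g : Matrix (Fin d) (Fin d) ℝ} (hg : g.det ≠ 0) {c : ℝ} (hc : 0 < c)
    (hp : Pos c g) {z : Matrix (Fin d) (Fin d) ℝ} (hz : z ∈ Om g) {b : Fin d → ℝ}
    (hb : Sz z b) (h3 : 3 ≤ (Finset.univ.image b).card)
    {y : ℕ → Matrix (Fin d) (Fin d) ℝ} (hy : ∀ n, y n ∈ Om g) (hlim : Tendsto y atTop (𝓝 z)) :
    ∀ᶠ n in atTop, diagonal b ∈ Aut (y n) := by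
  by_contra hcon
  rw [not_eventually] at hcon
  obtain ⟨φ, hφ, hno⟩ := extraction_of_frequently_atTop hcon
  have hzd : z.det ≠ 0 := Om_det_ne hg hz
  have hpz : Pos c z := Om_pos hg hc hp hz
  obtain ⟨b', hb', hiff, v, hv0, hvb, hvz⟩ := magnify_b hg hz hb.1 (y := fun n => y (φ n))
    (fun n => hy _) (hlim.comp hφ.tendsto_atTop) hno
  obtain ⟨v', hv'0, hv'z, β, γ, hγβ, hblk⟩ := one_block hg hc hp hz hb' _ v rfl hv0 hvb hvz
  obtain ⟨i, j, hij⟩ : ∃ i j, v' i j ≠ 0 := by
    by_contra h
    push Not at h
    exact hv'0 (Matrix.ext h)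
  have hbij : b i ≠ b j := by
    intro h
    have h1 := (hiff i j).2 h
    rw [(hblk i j hij).1, (hblk i j hij).2] at h1
    exact hγβ.ne' h1
  have hne : i ≠ j := fun h => hbij (by rw [h])
  -- the squares vanish
  have hsq : v' * v' = 0 := by
    ext k l
    rw [Matrix.mul_apply, Matrix.zero_apply]
    refine Finset.sum_eq_zero fun q _ => ?_
    by_contra h
    have h1 := left_ne_zero_of_mul h
    have h2 := right_ne_zero_of_mul h
    have h3 := (hblk k q h1).2
    have h4 := (hblk q l h2).1
    rw [h3] at h4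
    exact hγβ.ne h4
  -- the half line
  have hline : ∀ s : ℝ, 0 ≤ s → (1 + s • v') * z ∈ Om g := by
    intro s hs
    rcases eq_or_lt_of_le hs with h | h
    · rw [← h, zero_smul, add_zero, one_mul]
      exact hz
    · have hex : ∀ n : ℕ, ∃ a ∈ LL z,
          |Real.log (a i) - Real.log (a j) - Real.log s| < 1 / ((n : ℝ) + 1) := fun n =>
        dense_ratio hzd hc hpz hb h3 hbij (Real.log s) _ (by positivity)
      choose a ha hat using hex
      have hmem : ∀ n, (1 + (a n i / a n j) • v') * z ∈ Om g := by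
        intro n
        have h1 := Pool.H31.IS.conj_mem hg hv'z (ha n)
        have h2 : (Matrix.of fun k l => a n k / a n l * v' k l) = (a n i / a n j) • v' := by
          ext k l
          rw [Matrix.of_apply, Matrix.smul_apply, smul_eq_mul]
          by_cases hkl : v' k l = 0
          · rw [hkl, mul_zero, mul_zero]
          · have h3 : a n k = a n i := by
              apply hb.2 _ (ha n)
              apply (hiff k i).1
              rw [(hblk k l hkl).1, (hblk i j hij).1]
            have h4 : a n l = a n j := by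
              apply hb.2 _ (ha n)
              apply (hiff l j).1
              rw [(hblk k l hkl).2, (hblk i j hij).2]
            rw [h3, h4]
        rwa [h2] at h1
      have hlim1 : Tendsto (fun n => Real.log (a n i) - Real.log (a n j)) atTop
          (𝓝 (Real.log s)) := by
        rw [tendsto_iff_norm_sub_tendsto_zero]
        refine squeeze_zero (fun n => norm_nonneg _) (fun n => ?_)
          tendsto_one_div_add_atTop_nhds_zero_nat
        rw [Real.norm_eq_abs]
        exact (hat n).le
      have hlim2 : Tendsto (fun n => a n i / a n j) atTop (𝓝 s) := by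
        have h1 := (Real.continuous_exp.tendsto _).comp hlim1
        rw [Real.exp_log h] at h1
        refine h1.congr fun n => ?_
        show Real.exp (Real.log (a n i) - Real.log (a n j)) = a n i / a n j
        rw [Real.exp_sub, Real.exp_log ((ha n).1.1 i), Real.exp_log ((ha n).1.1 j)]
      exact Pool.H31.IS.lim_mem hg (F := fun n => (a n i / a n j) • v') (hlim2.smul_const v') hmem
  have hzero : v' i j = 0 := by
    refine zcr hzd (fun s hs x hx => ?_) hne
    have h1 : (s • v') * (s • v') = 0 := by
      rw [Matrix.smul_mul, Matrix.mul_smul, hsq, smul_zero, smul_zero]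
    rw [exp_sq h1]
    have h2 := Om_pos hg hc hp (hline s hs) x hx
    intro h3
    rw [h3, abs_zero] at h2
    linarith
  exact hij hzero

end Pool.Agent.H46.IS
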