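import Pool.Agent.H66.RL.Tow
import Pool.Agent.H46.RU.Shr
import Pool.Agent.H46.RU.Rst

/-!
# Towers inside the classes

As `tower` (H66/RL/Tow): as long as there are more blocks than level sets of `b` two blocks are in one level set, `block_in` and
`restrict` give the next step.
-/

set_option autoImplicit false

namespace Pool.Agent.H46.IS

open Matrix Filter Topology Pool.Agent.H89.CSD Pool.Agent.H46.RG Pool.Agent.H46.RU
  Pool.Agent.H66.RL

variable {d : ℕ}

theorem Ys_mono {Y Y' : Set (Matrix (Fin d) (Fin d) ℝ)} (h : Y' ⊆ Y) (st : List (Step d)) :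
    Ys Y' st ⊆ Ys Y st := by
  induction st with
  | nil => exact h
  | cons s st ih => exact fun z hz => ⟨ih hz.1, ih hz.2⟩

theorem tower_in {g : Matrix (Fin d) (Fin d) ℝ} (hg : g.det ≠ 0) {c : ℝ} (hc : 0 < c)
    (hp : Pos c g) {Y : Set (Matrix (Fin d) (Fin d) ℝ)} (hY : Y ⊆ Om g)
    (hinv : IsInv (A1 d) Y) {b : Fin d → ℝ} (hbY : b ∈ DA Y) (hbs : Sep Y b) :
    ∀ q, q + (Finset.univ.image b).card ≤ d → ∃ st : List (Step d),
      st.length = q ∧ Val st ∧ IsInv (TT (lab st)) (Ys Y st) ∧
      ∀ i j, lab st i = lab st j → b i = b j := by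
  classical
  intro q
  induction q with
  | zero =>
    intro _
    refine ⟨[], rfl, trivial, hinv.mono (TT_subset _), fun i j hij => ?_⟩
    have h : i = j := hij
    rw [h]
  | succ q ih =>
    intro hq
    obtain ⟨st, hlen, hval, hI, hlab⟩ := ih (by omega)
    have hcard := card_lab hval
    -- two blocks in one level set
    obtain ⟨i0, j0, hij0, hbij⟩ : ∃ i0 j0, lab st i0 ≠ lab st j0 ∧ b i0 = b j0 := by
      by_contra hcon
      push Not at hcon
      have h1 : ∀ i j, b i = b j → lab st i = lab st j := by
        intro i j hij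
        by_contra h
        exact hcon i j h hij
      have h2 : (Finset.univ.image (lab st)).card ≤ (Finset.univ.image b).card := by
        have : Nonempty (Fin d) := ⟨⟨0, by omega⟩⟩
        choose! f hf using fun (r : ℝ) (hr : r ∈ Finset.univ.image b) => Finset.mem_image.1 hr
        refine Finset.card_le_card_of_surjOn (fun r => lab st (f r)) ?_
        intro x hx
        rw [Finset.mem_coe] at hx
        obtain ⟨i, _, rfl⟩ := Finset.mem_image.1 hx
        refine ⟨b i, Finset.mem_coe.2 (Finset.mem_image_of_mem _ (Finset.mem_univ _)), ?_⟩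
        exact h1 _ _ (hf (b i) (Finset.mem_image_of_mem _ (Finset.mem_univ _))).2
      omega
    obtain ⟨r, hr⟩ : ∃ r, r = lab st i0 := ⟨_, rfl⟩
    obtain ⟨I, hIdef⟩ : ∃ I : Finset (Fin d), I = Finset.univ.filter fun i => lab st i = r :=
      ⟨_, rfl⟩
    have hmem : ∀ i, i ∈ I ↔ lab st i = r := by
      intro i
      simp [hIdef]
    have hsub : Ys Y st ⊆ Y := Ys_subset Y st
    have hflow : H46.RG.Flow I ⊆ TT (lab st) := by
      rintro _ ⟨t, rfl⟩
      refine ⟨flow_mem_A1 I t, fun i j hij => ?_⟩
      unfold flow
      have : i ∈ I ↔ j ∈ I := by rw [hmem, hmem, hij]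
      simp only [this]
    obtain ⟨z, hz, v, hv0, hblk, hz'⟩ := block_in hg hc hp hY hbs (I := I) (p := i0) (q := j0)
      ((hmem i0).2 hr.symm) (fun h => hij0 (by rw [(hmem j0).1 h, hr])) hbij hsub
      (hI.mono hflow)
    have hex : ∃ p l, v p l ≠ 0 := by
      by_contra h
      push Not at h
      apply hv0
      ext p l
      exact h p l
    obtain ⟨p, l, hpl⟩ := hex
    have hpl' := hblk p l hpl
    have hbpl : b p = b l := restrict hg hc hp hY hbY (hsub hz) hblk (hsub hz') hpl
    have hv : ∀ p l, v p l ≠ 0 → lab st p = r ∧ lab st l ≠ r := by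
      intro p l h
      have h1 := hblk p l h
      exact ⟨(hmem p).1 h1.1, fun h2 => h1.2 ((hmem l).2 h2)⟩
    obtain ⟨w, hw, hw'⟩ := isolate hg hc hp (lab st) (hsub.trans hY) hI hz hz' (r := r)
      (r' := lab st l) (fun h => (hv p l hpl).2 h.symm) hv
    obtain ⟨v', hv'⟩ : ∃ v' : Matrix (Fin d) (Fin d) ℝ,
        v' = Matrix.of fun p' l' => if lab st l' = lab st l then v p' l' else 0 := ⟨_, rfl⟩
    have hval' : Val (⟨r, lab st l, v'⟩ :: st) := by
      refine ⟨hval, fun h => (hv p l hpl).2 h.symm, ?_, ?_⟩
      · intro h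
        have h1 := congrFun (congrFun h p) l
        simp only [hv', Matrix.of_apply, if_true, Matrix.zero_apply] at h1
        exact hpl h1
      · intro p' l' h
        simp only [hv', Matrix.of_apply] at h
        by_cases h1 : lab st l' = lab st l
        · rw [if_pos h1] at h
          exact ⟨(hv p' l' h).1, h1⟩
        · rw [if_neg h1] at h
          exact absurd rfl h
    refine ⟨⟨r, lab st l, v'⟩ :: st, ?_, hval', ?_, ?_⟩
    · rw [List.length_cons, hlen]
    · refine isInv_step hval' hI ⟨w, hw, ?_⟩
      rw [hv']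
      exact hw'
    · -- the blocks stay inside the level sets
      have hrl : ∀ i j, lab st i = r → lab st j = lab st l → b i = b j := by
        intro i j hi hj
        rw [hlab i p (by rw [hi, (hv p l hpl).1]), hbpl]
        exact (hlab j l hj).symm
      intro i j hij
      have hij : mrg (lab st) r (lab st l) i = mrg (lab st) r (lab st l) j := hij
      unfold mrg at hij
      by_cases hi : lab st i = lab st l
      · rw [if_pos hi] at hij
        by_cases hj : lab st j = lab st l
        · exact hlab i j (by rw [hi, hj])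
        · rw [if_neg hj] at hij
          exact (hrl j i hij.symm hi).symm
      · rw [if_neg hi] at hij
        by_cases hj : lab st j = lab st l
        · rw [if_pos hj] at hij
          exact hrl i j hij hj
        · rw [if_neg hj] at hij
          exact hlab i j hij

end Pool.Agent.H46.IS
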