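import Pool.Agent.H46.IS.Cls
import Pool.Agent.H46.IS.Twr
import Pool.Agent.H46.IS.Cou

/-!
# The number of separated values in terms of the classes of `g`
-/

set_option autoImplicit false

namespace Pool.Agent.H46.IS

open Matrix Filter Topology Pool.Agent.H89.CSD Pool.Agent.H46.RG Pool.Agent.H46.RU
  Pool.Agent.H66.RL

variable {d : ℕ}

/-- The number of the values of `b`, or `2` if this is one and `d` is even. -/
noncomputable def Mx (b : Fin d → ℝ) : ℕ :=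
  if Even d then max 2 (Finset.univ.image b).card else (Finset.univ.image b).card

theorem DA_mono {Y Y' : Set (Matrix (Fin d) (Fin d) ℝ)} (h : Y' ⊆ Y) {b : Fin d → ℝ}
    (hb : b ∈ DA Y) : b ∈ DA Y' := ⟨hb.1, fun z hz => hb.2 z (h hz)⟩

theorem Sep_mono {Y Y' : Set (Matrix (Fin d) (Fin d) ℝ)} (h : Y' ⊆ Y) {b : Fin d → ℝ}
    (hb : RU.Sep Y b) : RU.Sep Y' b := fun z hz => hb z (h hz)

theorem self_mem_Om (g : Matrix (Fin d) (Fin d) ℝ) : g ∈ Om g := by
  refine (isInv_pos g).2 (subset_closure ⟨1, ⟨fun i => one_pos, by simp⟩, 1, by simp, ?_⟩)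
  have h1 : (1 : Matrix (Fin d) (Fin d) ℤ).map (Int.cast : ℤ → ℝ) = 1 := im_one
  have h2 : diagonal (1 : Fin d → ℝ) = (1 : Matrix (Fin d) (Fin d) ℝ) := Matrix.diagonal_one
  rw [h1, h2, Matrix.mul_one, Matrix.one_mul]

theorem has_tower (hd : 3 ≤ d) {g : Matrix (Fin d) (Fin d) ℝ} (hg : g.det ≠ 0) {c : ℝ}
    (hc : 0 < c) (hp : Pos c g) (hn : ¬ IntForm g) {b : Fin d → ℝ} (hb : Sz g b) :
    1 ≤ d - Mx b ∧ Tow g (d - Mx b) := by
  classical
  obtain ⟨hinv, hYO⟩ := isInv_pos g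
  have hgO : g ∈ Om g := self_mem_Om g
  obtain ⟨n, hn2, hlev⟩ := levels hd hg hc hp hn hgO hb.1.2
  have hcard := card_levels hlev
  have hle : (Finset.univ.image b).card * 2 ≤ d := by
    calc (Finset.univ.image b).card * 2 ≤ (Finset.univ.image b).card * n :=
          Nat.mul_le_mul_left _ hn2
      _ = d := hcard
  have key : ∀ m : ℕ, (Finset.univ.image b).card = m → (Odd d ∨ 2 ≤ m) → Tow g (d - m) := by
    intro m hm hcase
    obtain ⟨h1, h2⟩ := classes_const hd hg hc hp hb (by rw [hm]; exact hcase)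
    obtain ⟨st, hst, hval, hI, -⟩ := tower_in hg hc hp hYO hinv (DA_mono hYO h1)
      (Sep_mono hYO h2) (d - m) (by omega)
    exact ⟨st, hst, hval, hI.nonempty⟩
  unfold Mx
  by_cases hev : Even d
  · rw [if_pos hev]
    by_cases h2 : 2 ≤ (Finset.univ.image b).card
    · rw [max_eq_right h2]
      exact ⟨by omega, key _ rfl (Or.inr h2)⟩
    · rw [max_eq_left (by omega)]
      refine ⟨by omega, ?_⟩
      obtain ⟨Y', hY', hmin⟩ := exists_min hg hc hp hYO hinv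
      have hY'O : Y' ⊆ Om g := hY'.trans hYO
      obtain ⟨b', hbY, hbs⟩ := exists_sep hg hY'O hmin
      obtain ⟨z0, hz0⟩ := hmin.1.nonempty
      have hSz : Sz z0 b' := ⟨⟨hbY.1, hbY.2 z0 hz0⟩, fun a ha => hbs z0 hz0 a ha.1 ha.2⟩
      have h3 := two_classes hg hc hp hb (by omega) (hY'O hz0) hSz
      obtain ⟨st, hst, hval, hI, -⟩ := tower_in hg hc hp hY'O hmin.1 hbY hbs (d - 2) (by omega)
      exact ⟨st, hst, hval, hI.nonempty.mono (Ys_mono hY' st)⟩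
  · rw [if_neg hev]
    exact ⟨by omega, key _ rfl (Or.inl (Nat.not_even_iff_odd.1 hev))⟩

private theorem lgs_P_smul (t : ℝ) (g : Matrix (Fin d) (Fin d) ℝ) (x : Fin d → ℝ) :
    P (t • g) x = t ^ d * P g x := by
  unfold P
  have h1 : ∀ i : Fin d, ∑ j, (t • g) i j * x j = t * ∑ j, g i j * x j := by
    intro i
    rw [Finset.mul_sum]
    refine Finset.sum_congr rfl fun j _ => ?_
    rw [Matrix.smul_apply, smul_eq_mul, mul_assoc]
  simp_rw [h1]
  rw [Finset.prod_mul_distrib, Finset.prod_const, Finset.card_univ, Fintype.card_fin]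

private theorem lgs_intForm {t : ℝ} (ht : t ≠ 0) {g : Matrix (Fin d) (Fin d) ℝ}
    (h : IntForm (t • g)) : IntForm g := by
  obtain ⟨c, hc, hz⟩ := h
  refine ⟨c * t ^ d, mul_ne_zero hc (pow_ne_zero _ ht), fun m => ?_⟩
  obtain ⟨z, hz⟩ := hz m
  refine ⟨z, ?_⟩
  rw [← hz]
  congr 1
  have h1 : ∀ i : Fin d, (∑ j : Fin d, MvPolynomial.C ((t • g) i j) * MvPolynomial.X j :
      MvPolynomial (Fin d) ℝ) = MvPolynomial.C t * ∑ j : Fin d,
        MvPolynomial.C (g i j) * MvPolynomial.X j := by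
    intro i
    rw [Finset.mul_sum]
    refine Finset.sum_congr rfl fun j _ => ?_
    rw [Matrix.smul_apply, smul_eq_mul, MvPolynomial.C_mul, mul_assoc]
  simp_rw [h1]
  rw [Finset.prod_mul_distrib, Finset.prod_const, Finset.card_univ, Fintype.card_fin,
    ← MvPolynomial.C_pow, mul_smul]
  congr 1
  rw [MvPolynomial.smul_eq_C_mul]

private theorem lgs_Aut {t : ℝ} (ht : t ≠ 0) (g : Matrix (Fin d) (Fin d) ℝ) :
    RU.Aut (t • g) = RU.Aut g := by
  ext h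
  constructor
  · rintro ⟨U, hU⟩
    refine ⟨U, ?_⟩
    rw [Matrix.mul_smul, Matrix.smul_mul] at hU
    exact smul_right_injective _ ht hU
  · rintro ⟨U, hU⟩
    refine ⟨U, ?_⟩
    rw [Matrix.mul_smul, Matrix.smul_mul, hU]

private theorem lgs_Sz {t : ℝ} (ht : t ≠ 0) {g : Matrix (Fin d) (Fin d) ℝ} {b : Fin d → ℝ}
    (h : Sz g b) : Sz (t • g) b := by
  have h1 : LL (t • g) = LL g := by
    unfold LL
    rw [lgs_Aut ht]
  unfold Sz
  rw [h1]
  exact h

theorem log_pow_S (hd : 3 ≤ d) {c : ℝ} (hc : 0 < c) :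
    ∃ R κ : ℝ, 1 ≤ R ∧ 0 < κ ∧ ∀ g : Matrix (Fin d) (Fin d) ℝ, g.det ≠ 0 →
      (∀ x : Fin d → ℤ, x ≠ 0 → c * |g.det| ≤ |P g (ic x)|) →
      ¬ IntForm g → ∀ b : Fin d → ℝ, Sz g b → ∀ ε : ℝ, 0 < ε → ε < 1 →
        ∃ T : Finset (Fin d → ℤ), κ * Real.log (1 / ε) ^ (d - Mx b) ≤ T.card ∧
        (∀ x ∈ T, x ≠ 0 ∧ |P g (ic x)| ≤ R * |g.det|) ∧
        ∀ x ∈ T, ∀ y ∈ T, x ≠ y → ε * |g.det| ≤ |P g (ic x) - P g (ic y)| := by
  classical
  choose R κ hR hκ hmain using fun (m : ℕ) => log_one_gen (d := d) hd hc (m := m + 1) (by omega)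
  have hne : (Finset.range (d + 1)).Nonempty := ⟨0, by simp⟩
  refine ⟨∑ m ∈ Finset.range (d + 1), R m, (Finset.range (d + 1)).inf' hne κ, ?_, ?_, ?_⟩
  · calc (1 : ℝ) ≤ R 0 := hR 0
      _ ≤ ∑ m ∈ Finset.range (d + 1), R m :=
        Finset.single_le_sum (f := R) (fun m _ => by linarith [hR m]) (by simp)
  · rw [Finset.lt_inf'_iff]
    intro m _
    exact hκ m
  intro g hg hpos hn b hb ε hε hε1
  have hD : 0 < |g.det| := abs_pos.2 hg
  obtain ⟨hm1, -⟩ := has_tower hd hg (mul_pos hc hD) hpos hn hb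
  obtain ⟨m, hm⟩ : ∃ m, d - Mx b = m + 1 := ⟨d - Mx b - 1, by omega⟩
  have hmd : m ∈ Finset.range (d + 1) := Finset.mem_range.2 (by omega)
  have hRm : R m ≤ ∑ m ∈ Finset.range (d + 1), R m :=
    Finset.single_le_sum (f := R) (fun m _ => by linarith [hR m]) hmd
  have hκm : (Finset.range (d + 1)).inf' hne κ ≤ κ m := Finset.inf'_le _ hmd
  obtain ⟨t, ht⟩ : ∃ t : ℝ, t = |g.det|⁻¹ ^ ((d : ℝ)⁻¹) := ⟨_, rfl⟩
  have hd0 : d ≠ 0 := by omega
  have ht0 : 0 < t := by rw [ht]; exact Real.rpow_pos_of_pos (inv_pos.2 hD) _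
  have htd : t ^ d = |g.det|⁻¹ := by
    rw [ht]
    exact Real.rpow_inv_natCast_pow (inv_pos.2 hD).le hd0
  have hP : ∀ x : Fin d → ℝ, P (t • g) x = |g.det|⁻¹ * P g x := by
    intro x
    rw [lgs_P_smul, htd]
  have hdet : |(t • g).det| = 1 := by
    rw [Matrix.det_smul, Fintype.card_fin, htd, abs_mul, abs_inv, abs_abs,
      inv_mul_cancel₀ hD.ne']
  have habs : ∀ y : ℝ, |(|g.det|⁻¹ * y)| = |y| / |g.det| := by
    intro y
    rw [abs_mul, abs_inv, abs_abs, div_eq_inv_mul]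
  have hpos' : Pos c (t • g) := by
    intro x hx
    rw [hP, habs, le_div_iff₀ hD]
    exact hpos x hx
  have hdet0 : (t • g).det ≠ 0 := by
    intro h0
    rw [h0, abs_zero] at hdet
    exact zero_ne_one hdet
  obtain ⟨-, htow⟩ := has_tower hd hdet0 hc hpos' (fun h => hn (lgs_intForm ht0.ne' h))
    (lgs_Sz ht0.ne' hb)
  rw [hm] at htow
  obtain ⟨T, hT1, hT2, hT3⟩ := hmain m (t • g) hdet hpos' htow ε hε hε1
  have hl0 : 0 ≤ Real.log (1 / ε) ^ (m + 1) := by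
    apply pow_nonneg
    apply Real.log_nonneg
    rw [le_div_iff₀ hε]
    linarith
  refine ⟨T, ?_, fun x hx => ⟨(hT2 x hx).1, ?_⟩, fun x hx y hy hxy => ?_⟩
  · rw [hm]
    exact (mul_le_mul_of_nonneg_right hκm hl0).trans hT1
  · have h := (hT2 x hx).2
    rw [hP, habs, div_le_iff₀ hD] at h
    exact h.trans (mul_le_mul_of_nonneg_right hRm hD.le)
  · have h := hT3 x hx y hy hxy
    rwa [hP, hP, ← mul_sub, habs, le_div_iff₀ hD] at h

end Pool.Agent.H46.IS
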