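import Pool.Agent.H46.IS.Lgs

/-!
# The structure of the invariant subsets in terms of the classes of `g`
-/

set_option autoImplicit false

namespace Pool.Agent.H46.IS

open Matrix Filter Topology Pool.Agent.H89.CSD Pool.Agent.H46.RG Pool.Agent.H46.RU
  Pool.Agent.H46.MM Pool.Agent.H81.GF

variable {d : ℕ}

theorem image_two {b : Fin d → ℝ} (h : (Finset.univ.image b).card ≤ 2) {i j : Fin d}
    (hij : b i ≠ b j) (k : Fin d) : b k = b i ∨ b k = b j := by
  classical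
  by_contra hk
  push Not at hk
  have hsub : ({b i, b j, b k} : Finset ℝ) ⊆ Finset.univ.image b := by
    intro r hr
    simp only [Finset.mem_insert, Finset.mem_singleton] at hr
    rcases hr with rfl | rfl | rfl <;> exact Finset.mem_image_of_mem _ (Finset.mem_univ _)
  have hcard : ({b i, b j, b k} : Finset ℝ).card = 3 := by
    rw [Finset.card_insert_of_notMem, Finset.card_insert_of_notMem, Finset.card_singleton]
    · rw [Finset.mem_singleton]
      exact fun h => hk.2 h.symm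
    · rw [Finset.mem_insert, Finset.mem_singleton, not_or]
      exact ⟨hij, fun h => hk.1 h.symm⟩
  have h1 := Finset.card_le_card hsub
  omega

theorem shear_S (hd : 3 ≤ d) {g : Matrix (Fin d) (Fin d) ℝ} (hg : g.det ≠ 0) {c : ℝ}
    (hc : 0 < c) (hp : Pos c g) {b : Fin d → ℝ} (hb : Sz g b)
    {w : Fin d → ℝ} (hw : ∑ i, w i = 0) {i0 j0 : Fin d} (hb0 : b i0 = b j0) (hw0 : w i0 ≠ w j0)
    (hex : Even d → (Finset.univ.image b).card ≤ 1 → ¬ ∃ s : ℝ, ∀ i, w i = s ∨ w i = -s)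
    {Z : Set (Matrix (Fin d) (Fin d) ℝ)} (hZ : Z ⊆ Om g) (hinv : IsInv (GFlow w) Z) :
    ∃ z ∈ Z, ∃ v : Matrix (Fin d) (Fin d) ℝ, v ≠ 0 ∧ Up w v ∧ (1 + v) * z ∈ Z := by
  classical
  by_cases hcase : Odd d ∨ 2 ≤ (Finset.univ.image b).card
  · obtain ⟨-, h2⟩ := classes_const hd hg hc hp hb hcase
    rcases lt_or_gt_of_ne hw0 with h | h
    · exact shear_in hg hc hp subset_rfl h2 hw hb0.symm h hZ hinv
    · exact shear_in hg hc hp subset_rfl h2 hw hb0 h hZ hinv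
  · rw [not_or, Nat.not_odd_iff_even, not_le] at hcase
    obtain ⟨hev, hcard⟩ := hcase
    rcases dichotomy hg hc hp hw hZ hinv with h | ⟨z, hz, hwz⟩
    · exact h
    exfalso
    obtain ⟨bz, hbz⟩ := exists_Sz z
    have h2 := two_classes hg hc hp hb (by omega) (hZ hz) hbz
    have hwc : ∀ i j, bz i = bz j → w i = w j := fun i j hij =>
      span_const (fun a ha haz => hbz.2 a ⟨ha, haz⟩ i j hij) hwz
    have hne : bz i0 ≠ bz j0 := fun h => hw0 (hwc i0 j0 h)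
    have htwo := image_two h2 hne
    apply hex hev (by omega)
    refine ⟨w i0, fun i => ?_⟩
    rcases htwo i with h | h
    · exact Or.inl (hwc i i0 h)
    · right
      rw [hwc i j0 h]
      -- the two level sets have the same size
      obtain ⟨n, hn⟩ := level_card (Om_det_ne hg (hZ hz)) hc (Om_pos hg hc hp (hZ hz)) hbz.1.2
      have h3 : ∑ k, w k = n * w i0 + n * w j0 := by
        have h4 : ∀ k, w k = (if bz k = bz i0 then w i0 else 0) +
            (if bz k = bz j0 then w j0 else 0) := by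
          intro k
          rcases htwo k with h | h
          · rw [if_pos h, if_neg (fun h' => hne (h.symm.trans h')), add_zero, hwc k i0 h]
          · rw [if_neg (fun h' => hne (h'.symm.trans h)), if_pos h, zero_add, hwc k j0 h]
        rw [Finset.sum_congr rfl fun k _ => h4 k, Finset.sum_add_distrib, ← Finset.sum_filter,
          ← Finset.sum_filter, Finset.sum_const, Finset.sum_const, hn i0, hn j0, nsmul_eq_mul,
          nsmul_eq_mul]
      rw [hw] at h3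
      have hn0 : (n : ℝ) ≠ 0 := by
        have h5 : 0 < n := by
          rw [← hn i0]
          exact Finset.card_pos.2 ⟨i0, by simp⟩
        exact_mod_cast h5.ne'
      have h6 : (n : ℝ) * (w i0 + w j0) = 0 := by linarith
      rcases mul_eq_zero.1 h6 with h7 | h7
      · exact absurd h7 hn0
      · linarith

theorem structure_S (hd : 3 ≤ d) {g : Matrix (Fin d) (Fin d) ℝ} (hg : g.det ≠ 0) {c : ℝ}
    (hc : 0 < c) (hp : Pos c g) (hn : ¬ IntForm g) {b : Fin d → ℝ} (hb : Sz g b)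
    {Y : Set (Matrix (Fin d) (Fin d) ℝ)} (hY : Y ⊆ Om g) (hinv : IsInv (A1 d) Y) :
    ∃ Y' ⊆ Y, IsInv (A1 d) Y' ∧ ∃ b' ∈ A1 d, (∀ z ∈ Y', diagonal b' ∈ Aut z) ∧
      ((Odd d ∨ 2 ≤ (Finset.univ.image b).card) → Y' = Y ∧ b' = b) ∧
      (Finset.univ.image b').card ≤ Mx b ∧
      (∃ n : ℕ, 2 ≤ n ∧ ∀ i, (Finset.univ.filter fun j => b' j = b' i).card = n) ∧
      (∀ k l, k ≠ l → ((∃ z ∈ Y', (1 + Matrix.single k l 1) * z ∈ Y') ↔ b' k = b' l)) ∧
      (∃ M : Finset (Fin d × Fin d), Dis M ∧ (∀ p ∈ M, b' p.1 = b' p.2) ∧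
        (∀ i j, i ≠ j → b' i = b' j → i ∈ idx M ∨ j ∈ idx M) ∧
        ∃ z, ∀ Q ⊆ M, (1 + ∑ p ∈ Q, Matrix.single p.1 p.2 1) * z ∈ Y') ∧
      ∀ w : Fin d → ℝ, ∑ i, w i = 0 → ∀ i j, b' i = b' j → w j < w i →
        ∀ Z : Set (Matrix (Fin d) (Fin d) ℝ), Z ⊆ Y' → IsInv (GFlow w) Z →
        ∃ z ∈ Z, ∃ v : Matrix (Fin d) (Fin d) ℝ, v ≠ 0 ∧ Up w v ∧ (1 + v) * z ∈ Z := by
  classical
  -- everything except the second clause follows from `DA` and `Sep`
  have key : ∀ (Y' : Set (Matrix (Fin d) (Fin d) ℝ)) (b' : Fin d → ℝ), Y' ⊆ Om g →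
      IsInv (A1 d) Y' → b' ∈ DA Y' → RU.Sep Y' b' →
      (∃ n : ℕ, 2 ≤ n ∧ ∀ i, (Finset.univ.filter fun j => b' j = b' i).card = n) ∧
      (∀ k l, k ≠ l → ((∃ z ∈ Y', (1 + Matrix.single k l 1) * z ∈ Y') ↔ b' k = b' l)) ∧
      (∃ M : Finset (Fin d × Fin d), Dis M ∧ (∀ p ∈ M, b' p.1 = b' p.2) ∧
        (∀ i j, i ≠ j → b' i = b' j → i ∈ idx M ∨ j ∈ idx M) ∧
        ∃ z, ∀ Q ⊆ M, (1 + ∑ p ∈ Q, Matrix.single p.1 p.2 1) * z ∈ Y') ∧
      ∀ w : Fin d → ℝ, ∑ i, w i = 0 → ∀ i j, b' i = b' j → w j < w i →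
        ∀ Z : Set (Matrix (Fin d) (Fin d) ℝ), Z ⊆ Y' → IsInv (GFlow w) Z →
        ∃ z ∈ Z, ∃ v : Matrix (Fin d) (Fin d) ℝ, v ≠ 0 ∧ Up w v ∧ (1 + v) * z ∈ Z := by
    intro Y' b' hY' hinv' hbY hbs
    obtain ⟨z0, hz0⟩ := hinv'.nonempty
    refine ⟨levels hd hg hc hp hn (hY' hz0) (hbY.2 z0 hz0), fun k l hkl => ⟨?_, ?_⟩,
      RU.matching hg hc hp hY' hinv' hbY hbs, ?_⟩
    · rintro ⟨z, hz, hz'⟩
      exact roots_only hg hc hp hY' hbY hkl one_ne_zero hz hz'
    · intro h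
      exact RU.all_roots hg hc hp hY' hinv' hbY hbs hkl h
    · intro w hw i j hij hwij Z hZ hZinv
      exact shear_in hg hc hp hY' hbs hw hij hwij hZ hZinv
  by_cases hcase : Odd d ∨ 2 ≤ (Finset.univ.image b).card
  · obtain ⟨h1, h2⟩ := classes_const hd hg hc hp hb hcase
    have h1' := DA_mono hY h1
    have h2' := Sep_mono hY h2
    refine ⟨Y, subset_rfl, hinv, b, hb.1.1, h1'.2, fun _ => ⟨rfl, rfl⟩, ?_, key Y b hY hinv h1' h2'⟩
    unfold Mx
    split_ifs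
    · exact le_max_right _ _
    · exact le_rfl
  · obtain ⟨Y', hY', hmin⟩ := exists_min hg hc hp hY hinv
    have hY'O : Y' ⊆ Om g := hY'.trans hY
    obtain ⟨b', hbY, hbs⟩ := exists_sep hg hY'O hmin
    obtain ⟨z0, hz0⟩ := hmin.1.nonempty
    have hSz : Sz z0 b' := ⟨⟨hbY.1, hbY.2 z0 hz0⟩, fun a ha => hbs z0 hz0 a ha.1 ha.2⟩
    rw [not_or, Nat.not_odd_iff_even, not_le] at hcase
    have h3 := two_classes hg hc hp hb (by omega) (hY'O hz0) hSz
    refine ⟨Y', hY', hmin.1, b', hbY.1, hbY.2, fun h => ?_, ?_,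
      key Y' b' hY'O hmin.1 hbY hbs⟩
    · exfalso
      rcases h with h | h
      · exact (Nat.not_odd_iff_even.2 hcase.1) h
      · omega
    · unfold Mx
      rw [if_pos hcase.1]
      exact h3.trans (le_max_left _ _)

end Pool.Agent.H46.IS
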