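import Mathlib
import Pool.Agent.H46.AB.Fin
import Pool.Agent.H46.RG.Unc
import Pool.Agent.H46.RG.Perf
import Pool.Agent.H46.IS.Str
import Pool.Agent.H81.LW.Log

/-!
# Products of linear forms: rigidity of the forms which would contradict Q1

Let `d ≥ 3` and let `F` be the product of the linear forms given by the rows of an invertible real
matrix `g`.  Suppose that `F` is not proportional to an integral form and that `|F| ≥ c |det g|` at
the nonzero integer vectors (a counterexample to Q1).  Then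
* there is a diagonal automorph `b` of the lattice of `g` such that all diagonal automorphs are
  constant on the level sets of `b`; let `m` be the number of the level sets (`m = 1` if `g` has only
  the trivial automorph) and `m' = m`, but `m' = 2` if `m = 1` and `d` is even.  The values of `F` in
  `[-R |det g|, R |det g|]` contain `κ (log (1 / ε)) ^ (d - m')` points with distances at least
  `ε |det g|`, where `R` and `κ` depend only on `d` and `c`; and the closure of the set of values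
  contains a nonempty perfect subset of `[-C |det g|, C |det g|]` for every `C > d! / d ^ d`;
* for every one-parameter group `exp (t w)` of diagonal matrices of determinant one for which `w` is
  not constant on the level sets of `b` every nonempty closed set of lattices in the closed orbit
  which is invariant under the group contains a lattice `z` and `(1 + v) z`, `v ≠ 0`, with the
  nonzero entries of `v` at places expanded by the group (a `w`-shear); if `d` is even and `m = 1`, the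
  `w` with two values `s`, `-s` are excepted;
* every nonempty closed `A`-invariant subset `Y` of the closed orbit contains a nonempty closed
  `A`-invariant subset `Y'` and there is a common diagonal automorph `b'` of the lattices in `Y'`
  (`Y' = Y` and `b' = b` if `d` is odd or `m > 1`), `b'` has at most `m'` level sets, they have the same
  size `n > 1`, `Y'` contains some `z` and `(1 + E_kl) z` if and only if `k` and `l` are in the same
  level set; there are disjoint pairs of indices inside the level sets, which leave at most one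
  index of each level set, and some `z` such that `Y'` contains `(1 + ∑ E_kl) z` for all sets of these
  pairs; and if `w` is not constant on a level set then every nonempty closed subset of `Y'` which is
  invariant under `exp (t w)` contains a `w`-shear;
* for every `m` and every nonempty closed `A`-invariant subset of the closed orbit the minimal
  sets of the one-parameter group of `{m}` in it are uncountably many;
* no lattice in the closed orbit has a block of rows with the span of the vectors `σ (w)`,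
  `σ ∈ T`, `w ∈ K ^ d`, `K` a number field of degree at most `d`, `T` not a union of classes of
  embeddings with the same restriction to a proper totally real subfield.

The first clause, with the exponent `d - d / p`, `p` the least prime factor of `d`, holds for the limit
points of the sequence `q ‖q α_1‖ ⋯ ‖q α_{d - 1}‖`, if it is at least `c` for all large `q` (a
counterexample to Littlewood's conjecture for `d - 1` numbers).
-/

set_option autoImplicit false

namespace Pool.Agent.H46.IS.Main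

open Pool.Agent.H46.RG

/-- The product of the linear forms given by the rows of `g`. -/
def F {d : ℕ} (g : Matrix (Fin d) (Fin d) ℝ) (x : Fin d → ℤ) : ℝ :=
  ∏ i : Fin d, ∑ j : Fin d, g i j * (x j : ℝ)

/-- A nonzero real multiple of the product has integer coefficients. -/
def Integral {d : ℕ} (g : Matrix (Fin d) (Fin d) ℝ) : Prop :=
  ∃ s : ℝ, s ≠ 0 ∧ ∀ m : Fin d →₀ ℕ, ∃ z : ℤ,
    MvPolynomial.coeff m (s • (∏ i : Fin d, ∑ j : Fin d,
      MvPolynomial.C (g i j) * MvPolynomial.X j : MvPolynomial (Fin d) ℝ)) = (z : ℝ)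

/-- The diagonal automorphs (positive, of determinant one) of the lattice `z ℤ ^ d`. -/
def Auto {d : ℕ} (z : Matrix (Fin d) (Fin d) ℝ) : Set (Fin d → ℝ) :=
  {a | a ∈ A1 d ∧ ∃ U : Matrix (Fin d) (Fin d) ℤ, IsUnit U.det ∧
    Matrix.diagonal a * z = z * U.map (Int.cast : ℤ → ℝ)}

/-- All level sets of `b` have the same size, which is at least two. -/
def EqualLevels {d : ℕ} (b : Fin d → ℝ) : Prop :=
  ∃ n : ℕ, 2 ≤ n ∧ ∀ i, (Finset.univ.filter fun j => b j = b i).card = n

/-- `b` is a diagonal automorph of `g`, and all of them are constant on the level sets of `b`. -/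
def Separates {d : ℕ} (g : Matrix (Fin d) (Fin d) ℝ) (b : Fin d → ℝ) : Prop :=
  b ∈ Auto g ∧ ∀ a ∈ Auto g, ∀ i j, b i = b j → a i = a j

/-- The number of the level sets of `b`. -/
noncomputable def classes {d : ℕ} (b : Fin d → ℝ) : ℕ := (Finset.univ.image b).card

/-- The number of the level sets of `b`, but two if it is one and `d` is even. -/
noncomputable def classes' {d : ℕ} (b : Fin d → ℝ) : ℕ :=
  if Even d then max 2 (classes b) else classes b

/-- `Z` contains a lattice `z` and `(1 + v) z`, `v ≠ 0`, the nonzero entries of `v` at places which are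
expanded by `exp (t w)`. -/
def HasShear {d : ℕ} (w : Fin d → ℝ) (Z : Set (Matrix (Fin d) (Fin d) ℝ)) : Prop :=
  ∃ z ∈ Z, ∃ v : Matrix (Fin d) (Fin d) ℝ, v ≠ 0 ∧ (∀ a b, v a b ≠ 0 → w b < w a) ∧ (1 + v) * z ∈ Z

/-- The sequence `q ‖q α_1‖ ⋯ ‖q α_m‖`. -/
noncomputable def L {m : ℕ} (α : Fin m → ℝ) (q : ℕ) : ℝ :=
  q * ∏ i, |(q : ℝ) * α i - round ((q : ℝ) * α i)|

/-- The two descriptions of the automorphs agree. -/
theorem mem_Auto {d : ℕ} {z : Matrix (Fin d) (Fin d) ℝ} {a : Fin d → ℝ} :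
    a ∈ Auto z ↔ a ∈ A1 d ∧ Matrix.diagonal a ∈ Pool.Agent.H46.RU.Aut z := by
  constructor
  · rintro ⟨ha, U, hU, h⟩
    obtain ⟨V, hV⟩ := exists_unit hU
    refine ⟨ha, V, ?_⟩
    rw [hV]
    exact h
  · rintro ⟨ha, V, h⟩
    exact ⟨ha, V, isUnit_det_unit V, h⟩

theorem separates_iff {d : ℕ} {g : Matrix (Fin d) (Fin d) ℝ} {b : Fin d → ℝ} :
    Separates g b ↔ Pool.Agent.H46.IS.Sz g b := by
  constructor
  · rintro ⟨h1, h2⟩
    exact ⟨mem_Auto.1 h1, fun a ha => h2 a (mem_Auto.2 ha)⟩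
  · rintro ⟨h1, h2⟩
    exact ⟨mem_Auto.2 h1, fun a ha => h2 a (mem_Auto.1 ha)⟩

theorem classes'_eq {d : ℕ} (b : Fin d → ℝ) : classes' b = Pool.Agent.H46.IS.Mx b := rfl

theorem struc {d : ℕ} (hd : 3 ≤ d) {g : Matrix (Fin d) (Fin d) ℝ} (hg : g.det ≠ 0) {c : ℝ}
    (hc : 0 < c) (hp : Pool.Agent.H89.CSD.Pos c g) (hn : ¬ Pool.Agent.H89.CSD.IntForm g)
    {b : Fin d → ℝ} (hb : Separates g b)
    {Y : Set (Matrix (Fin d) (Fin d) ℝ)} (hY : Y ⊆ Om g) (hinv : IsInv (A1 d) Y) :
    ∃ Y' : Set (Matrix (Fin d) (Fin d) ℝ), Y' ⊆ Y ∧ IsInv (A1 d) Y' ∧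
      ∃ b' : Fin d → ℝ, (∀ z ∈ Y', b' ∈ Auto z) ∧ EqualLevels b' ∧ classes b' ≤ classes' b ∧
        (Odd d ∨ 2 ≤ classes b → Y' = Y ∧ b' = b) ∧
        (∀ k l : Fin d, k ≠ l →
          ((∃ z ∈ Y', (1 + Matrix.single k l (1 : ℝ)) * z ∈ Y') ↔ b' k = b' l)) ∧
        (∃ M : Finset (Fin d × Fin d), (∀ p ∈ M, p.1 ≠ p.2 ∧ b' p.1 = b' p.2) ∧
          (∀ p ∈ M, ∀ q ∈ M, p ≠ q → p.1 ≠ q.1 ∧ p.1 ≠ q.2 ∧ p.2 ≠ q.1 ∧ p.2 ≠ q.2) ∧
          (∀ i j : Fin d, i ≠ j → b' i = b' j →
            ∃ p ∈ M, i = p.1 ∨ i = p.2 ∨ j = p.1 ∨ j = p.2) ∧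
          ∃ z, ∀ Q ⊆ M, (1 + ∑ p ∈ Q, Matrix.single p.1 p.2 (1 : ℝ)) * z ∈ Y') ∧
        ∀ w : Fin d → ℝ, ∑ i, w i = 0 → (∃ i j, b' i = b' j ∧ w i ≠ w j) →
          ∀ Z : Set (Matrix (Fin d) (Fin d) ℝ), Z ⊆ Y' →
          IsInv (Set.range fun (t : ℝ) (i : Fin d) => Real.exp (t * w i)) Z → HasShear w Z := by
  obtain ⟨Y', hY', hinv', b', hb1, hb2, hcase, hMx, hb3, hb4, ⟨M, hM1, hM2, hM3, z, hz⟩, hb6⟩ :=
    Pool.Agent.H46.IS.structure_S hd hg hc hp hn (separates_iff.1 hb) hY hinv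
  refine ⟨Y', hY', hinv', b', fun z hz => mem_Auto.2 ⟨hb1, hb2 z hz⟩, hb3, hMx, hcase, hb4,
    ⟨M, fun p hp => ⟨hM1.1 p hp, hM2 p hp⟩, hM1.2, ?_, z, hz⟩, ?_⟩
  · intro i j hij hbij
    rcases hM3 i j hij hbij with h | h
    · obtain ⟨p, hp, h'⟩ := Pool.Agent.H46.MM.mem_idx.1 h
      rcases h' with h' | h'
      · exact ⟨p, hp, Or.inl h'⟩
      · exact ⟨p, hp, Or.inr (Or.inl h')⟩
    · obtain ⟨p, hp, h'⟩ := Pool.Agent.H46.MM.mem_idx.1 h
      rcases h' with h' | h'
      · exact ⟨p, hp, Or.inr (Or.inr (Or.inl h'))⟩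
      · exact ⟨p, hp, Or.inr (Or.inr (Or.inr h'))⟩
  · rintro w hw ⟨i, j, hij, hwij⟩ Z hZ hZinv
    rcases lt_or_gt_of_ne hwij with h | h
    · exact hb6 w hw j i hij.symm h Z hZ hZinv
    · exact hb6 w hw i j hij h Z hZ hZinv

theorem result' (d : ℕ) (hd : 3 ≤ d) (c : ℝ) (hc : 0 < c) :
    ∃ R κ : ℝ, 1 ≤ R ∧ 0 < κ ∧ (∀ g : Matrix (Fin d) (Fin d) ℝ, g.det ≠ 0 →
      (∀ x : Fin d → ℤ, x ≠ 0 → c * |g.det| ≤ |F g x|) → ¬ Integral g →
      -- a perfect set of limits of values
      (∀ C : ℝ, (d.factorial : ℝ) / (d : ℝ) ^ d < C →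
        ∃ K : Set ℝ, Perfect K ∧ K.Nonempty ∧
          K ⊆ closure {v | ∃ x : Fin d → ℤ, x ≠ 0 ∧ v = F g x} ∧
          K ⊆ Set.Icc (-(C * |g.det|)) (C * |g.det|)) ∧
      -- a diagonal automorph `b` which separates as much as possible
      (∃ b : Fin d → ℝ, Separates g b) ∧
      (∀ b : Fin d → ℝ, Separates g b → EqualLevels b ∧
        -- at least `κ (log (1 / ε)) ^ (d - m')` separated values
        (∀ ε : ℝ, 0 < ε → ε < 1 → ∃ T : Finset (Fin d → ℤ),
          κ * Real.log (1 / ε) ^ (d - classes' b) ≤ T.card ∧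
          (∀ x ∈ T, x ≠ 0 ∧ |F g x| ≤ R * |g.det|) ∧
          ∀ x ∈ T, ∀ y ∈ T, x ≠ y → ε * |g.det| ≤ |F g x - F g y|) ∧
        -- shears for the one-parameter groups which are not constant on the level sets of `b`
        (∀ w : Fin d → ℝ, ∑ i, w i = 0 → (∃ i j, b i = b j ∧ w i ≠ w j) →
          (Even d → classes b = 1 → ¬ ∃ s : ℝ, ∀ i, w i = s ∨ w i = -s) →
          ∀ Z : Set (Matrix (Fin d) (Fin d) ℝ), Z ⊆ Om g →
          IsInv (Set.range fun (t : ℝ) (i : Fin d) => Real.exp (t * w i)) Z → HasShear w Z) ∧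
        -- the invariant sets `Y` of the diagonal group
        ∀ Y : Set (Matrix (Fin d) (Fin d) ℝ), Y ⊆ Om g → IsInv (A1 d) Y →
          ∃ Y' : Set (Matrix (Fin d) (Fin d) ℝ), Y' ⊆ Y ∧ IsInv (A1 d) Y' ∧
            ∃ b' : Fin d → ℝ, (∀ z ∈ Y', b' ∈ Auto z) ∧ EqualLevels b' ∧
              classes b' ≤ classes' b ∧ (Odd d ∨ 2 ≤ classes b → Y' = Y ∧ b' = b) ∧
              -- the root directions
              (∀ k l : Fin d, k ≠ l →
                ((∃ z ∈ Y', (1 + Matrix.single k l (1 : ℝ)) * z ∈ Y') ↔ b' k = b' l)) ∧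
              -- disjoint pairs of indices, all products of their shears
              (∃ M : Finset (Fin d × Fin d), (∀ p ∈ M, p.1 ≠ p.2 ∧ b' p.1 = b' p.2) ∧
                (∀ p ∈ M, ∀ q ∈ M, p ≠ q → p.1 ≠ q.1 ∧ p.1 ≠ q.2 ∧ p.2 ≠ q.1 ∧ p.2 ≠ q.2) ∧
                (∀ i j : Fin d, i ≠ j → b' i = b' j →
                  ∃ p ∈ M, i = p.1 ∨ i = p.2 ∨ j = p.1 ∨ j = p.2) ∧
                ∃ z, ∀ Q ⊆ M, (1 + ∑ p ∈ Q, Matrix.single p.1 p.2 (1 : ℝ)) * z ∈ Y') ∧
              -- the one-parameter groups which are not constant on the level sets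
              ∀ w : Fin d → ℝ, ∑ i, w i = 0 → (∃ i j, b' i = b' j ∧ w i ≠ w j) →
                ∀ Z : Set (Matrix (Fin d) (Fin d) ℝ), Z ⊆ Y' →
                IsInv (Set.range fun (t : ℝ) (i : Fin d) => Real.exp (t * w i)) Z →
                HasShear w Z) ∧
      -- uncountably many minimal sets
      (∀ Y : Set (Matrix (Fin d) (Fin d) ℝ), Y ⊆ Om g → IsInv (A1 d) Y →
        ∀ m : Fin d, ¬ {N : Set (Matrix (Fin d) (Fin d) ℝ) |
          N ⊆ Y ∧ IsMin (Flow (Finset.univ.erase m)) N}.Countable) ∧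
      -- no algebraic block in the closed orbit
      (∀ g' ∈ Om g, ∀ (K : Type) [Field K] [NumberField K], Module.finrank ℚ K ≤ d →
        ∀ (w : Fin d → K) (T : Set (K →+* ℂ)),
        (∀ L : Subfield K, NumberField.IsTotallyReal L →
          (∀ σ τ : K →+* ℂ, (∀ x ∈ L, σ x = τ x) → σ ∈ T → τ ∈ T) → L = ⊤) →
        ∀ I : Set (Fin d), I.Nonempty →
          Submodule.span ℂ ((fun i j => (g' i j : ℂ)) '' I) ≠
            Submodule.span ℂ ((fun (σ : K →+* ℂ) j => σ (w j)) '' T))) ∧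
    -- the products of the distances of the multiples of `d - 1` numbers to the nearest integers
    ∀ m : ℕ, d = m + 1 → ∀ α : Fin m → ℝ, (∃ N : ℕ, ∀ q : ℕ, N ≤ q → 0 < q → c ≤ L α q) →
      (∀ ε : ℝ, 0 < ε → ε < 1 → ∃ T : Finset ℝ,
        κ * Real.log (1 / ε) ^ (d - d / d.minFac) ≤ T.card ∧
        (∀ v ∈ T, 0 < v ∧ v ≤ R ∧ MapClusterPt v Filter.atTop (L α)) ∧
        ∀ v ∈ T, ∀ v' ∈ T, v ≠ v' → ε ≤ |v - v'|) ∧
      ∀ C : ℝ, (d.factorial : ℝ) / (d : ℝ) ^ d < C →
        ∃ K : Set ℝ, Perfect K ∧ K.Nonempty ∧ K ⊆ Set.Ioc 0 C ∧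
          ∀ v ∈ K, MapClusterPt v Filter.atTop (L α) := by
  obtain ⟨R₁, κ₁, hR₁, hκ₁, h1⟩ := Pool.Agent.H46.IS.log_pow_S (d := d) hd hc
  obtain ⟨m, rfl⟩ : ∃ m, d = m + 1 := ⟨d - 1, by omega⟩
  obtain ⟨R₂, κ₂, hκ₂, h2⟩ := Pool.Agent.H81.LW.log_limit_points (m := m) (by omega) hc
  have hmono : ∀ (ε κ' : ℝ) (k : ℕ), 0 < ε → ε < 1 → min κ₁ κ₂ ≤ κ' →
      min κ₁ κ₂ * Real.log (1 / ε) ^ k ≤ κ' * Real.log (1 / ε) ^ k := by
    intro ε κ' k h0 h1' h
    apply mul_le_mul_of_nonneg_right h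
    apply pow_nonneg
    apply Real.log_nonneg
    rw [le_div_iff₀ h0]
    linarith
  refine ⟨max R₁ R₂, min κ₁ κ₂, le_max_of_le_left hR₁, lt_min hκ₁ hκ₂, ?_, ?_⟩
  · intro g hg hlow hint
    have hdet : 0 < |g.det| := abs_pos.2 hg
    have hcg : 0 < c * |g.det| := mul_pos hc hdet
    refine ⟨fun C hC => values_perfect hd hg hcg hlow hint C
        (fun h hh => Pool.Agent.H81.LW.mink_l1 (by omega) hC h hh), ?_, ?_,
      fun Y hY hinv m => uncountable_min hd hg hcg hlow hint hY hinv m, ?_⟩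
    · obtain ⟨b, hb⟩ := Pool.Agent.H46.IS.exists_Sz g
      exact ⟨b, separates_iff.2 hb⟩
    · intro b hb
      have hb' := separates_iff.1 hb
      refine ⟨?_, ?_, ?_, fun Y hY hinv => struc hd hg hcg hlow hint hb hY hinv⟩
      · have hgO : g ∈ Om g := Pool.Agent.H46.IS.self_mem_Om g
        exact Pool.Agent.H46.RU.levels hd hg hcg hlow hint hgO hb'.1.2
      · intro ε h0 h1'
        obtain ⟨T, hT1, hT2, hT3⟩ := h1 g hg hlow hint b hb' ε h0 h1'
        refine ⟨T, (hmono ε κ₁ _ h0 h1' (min_le_left _ _)).trans hT1, fun x hx => ⟨(hT2 x hx).1,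
          (hT2 x hx).2.trans (mul_le_mul_of_nonneg_right (le_max_left _ _) hdet.le)⟩, hT3⟩
      · rintro w hw ⟨i, j, hij, hwij⟩ hex Z hZ hinv
        refine Pool.Agent.H46.IS.shear_S hd hg hcg hlow hb' hw hij hwij ?_ hZ hinv
        intro hev hcard
        apply hex hev
        have h3 : 0 < (Finset.univ.image b).card :=
          Finset.card_pos.2 ⟨b i, Finset.mem_image_of_mem _ (Finset.mem_univ _)⟩
        unfold classes
        omega
    · intro g' hg' K _ _ hK w T hT I hI hblock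
      have hg'd : g'.det ≠ 0 := Om_det_ne hg hg'
      apply hint
      refine H46.AB.main (m + 1) hd g g' hg hg'd ?_ K w hK T hT I hI hblock (c * |g.det|) hcg hlow
      have h2 := hg'.1
      refine closure_mono ?_ h2
      rintro h ⟨a, -, γ, hγ, rfl⟩
      exact ⟨a, γ, hγ, rfl⟩
  · intro m' hm' α hN
    obtain rfl : m = m' := by omega
    refine ⟨?_, ?_⟩
    · intro ε h0 h1'
      obtain ⟨T, hT1, hT2, hT3⟩ := h2 α hN ε h0 h1'
      exact ⟨T, (hmono ε κ₂ _ h0 h1' (min_le_right _ _)).trans hT1, fun v hv => ⟨(hT2 v hv).1,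
        (hT2 v hv).2.1.trans (le_max_right _ _), (hT2 v hv).2.2⟩, hT3⟩
    · intro C hC
      rcases Pool.Agent.H81.LW.perfect_limit_points (m := m) (by omega) α C
        (fun h hh => Pool.Agent.H81.LW.mink_l1 (by omega) hC h hh) with h3 | h3
      · exfalso
        obtain ⟨N, hN⟩ := hN
        obtain ⟨q, hq1, hq2, hq3⟩ := h3 c hc N
        exact absurd hq3 (not_lt.2 (hN q hq1 hq2))
      · exact h3

end Pool.Agent.H46.IS.Main
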