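import Pool.Agent.H46.IS.App
import Pool.Agent.H31.IS.Cj

/-!
# [H46 IS MGA] Magnification by the powers of an automorph (75 min)

Let `E n = y n * z⁻¹ - 1 → 0` (`hlim`, `z * z⁻¹ = 1`), `y n = (1 + E n) * z`.
(1) For every `n` there are `k, l` with `b k ≠ b l`, `E n k l ≠ 0`: otherwise `1 + E n` commutes with `diag b` and
`diag(b) y n = (1 + E n) diag(b) z = (1 + E n) z U = y n U`, against `hno`.
(2) So for infinitely many `n` there are such `k, l` with `b l < b k`, or for infinitely many `n` with `b k < b l`.  In the first case let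
`b' = b`, in the second `b' = b⁻¹` (`LL_inv`).  Pass to a subsequence (`Filter.extraction_of_frequently_atTop`): for all `n` there are `k, l`
with `b' l < b' k` and `E n k l ≠ 0`.
(3) Let `N n` be the least `N` for which `1 ≤ |E n k l| * (b' k / b' l) ^ N` for some `k, l` with `b' l < b' k` (it exists: `b' k / b' l > 1`).
`N n → ∞`: for every `N0` and large `n` all `|E n k l| * (b' k / b' l) ^ N0 < 1`.  Let `F n k l = E n k l * (b' k / b' l) ^ (N n)`, that is
`F n = D E n D⁻¹`, `D = diag (b' ^ (N n))`.  If `b' l < b' k`: `|F n k l| ≤ b' k / b' l` as soon as `N n ≥ 1` (minimality); if `b' k ≤ b' l`: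
`|F n k l| ≤ |E n k l| → 0`.  So the entries of `F n` are bounded, a subsequence converges to some `v` (compactness), the entries
`v k l` with `b' k ≤ b' l` vanish, and `v ≠ 0` because on a further subsequence `|F n k l| ≥ 1` for fixed `k, l` (pigeonhole).
(4) `(1 + F n) z = D (1 + E n) D⁻¹ z = D y n V`, `V` a unit (`D⁻¹ ∈ Aut z`), so it is in `Om g` (`Om_inv`), and `Om g` is closed.
-/

set_option autoImplicit false

namespace Pool.Agent.H46.IS

open Matrix Filter Topology Pool.Agent.H89.CSD Pool.Agent.H46.RG Pool.Agent.H46.RU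

variable {d : ℕ}

private theorem core {g z : Matrix (Fin d) (Fin d) ℝ} (hg : g.det ≠ 0) (hz : z.det ≠ 0)
    {b : Fin d → ℝ} (hb : b ∈ LL z) {E : ℕ → Matrix (Fin d) (Fin d) ℝ}
    (hE : ∀ n, (1 + E n) * z ∈ Om g) (hlim : Tendsto E atTop (𝓝 0))
    (h1 : ∀ n k l, |E n k l| < 1) (h2 : ∀ n, ∃ k l, b l < b k ∧ E n k l ≠ 0) :
    ∃ v : Matrix (Fin d) (Fin d) ℝ, v ≠ 0 ∧
      (∀ k l, v k l ≠ 0 → b l < b k) ∧ (1 + v) * z ∈ Om g := by
  classical
  have hpos : ∀ i, 0 < b i := hb.1.1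
  have hex : ∀ n, ∃ N : ℕ, ∃ k l, b l < b k ∧ 1 ≤ |E n k l| * (b k / b l) ^ N := by
    intro n
    obtain ⟨k, l, hkl, hne⟩ := h2 n
    have hr : 1 < b k / b l := (one_lt_div (hpos l)).2 hkl
    obtain ⟨N, hN⟩ := pow_unbounded_of_one_lt (|E n k l|)⁻¹ hr
    refine ⟨N, k, l, hkl, ?_⟩
    have h3 : 0 < |E n k l| := abs_pos.2 hne
    have h4 : |E n k l| * (|E n k l|)⁻¹ = 1 := mul_inv_cancel₀ h3.ne'
    rw [← h4]
    exact mul_le_mul_of_nonneg_left hN.le h3.le
  let N : ℕ → ℕ := fun n => Nat.find (hex n)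
  have hN1 : ∀ n, ∃ k l, b l < b k ∧ 1 ≤ |E n k l| * (b k / b l) ^ N n := fun n =>
    Nat.find_spec (hex n)
  have hN2 : ∀ n M, M < N n → ∀ k l, b l < b k → |E n k l| * (b k / b l) ^ M < 1 := by
    intro n M hM k l hkl
    by_contra hcon
    push Not at hcon
    exact Nat.find_min (hex n) hM ⟨k, l, hkl, hcon⟩
  let F : ℕ → Matrix (Fin d) (Fin d) ℝ := fun n => Matrix.of fun k l => (b k / b l) ^ N n * E n k l
  have hFd : ∀ n k l, F n k l = (b k / b l) ^ N n * E n k l := fun n k l => rfl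
  have hpow : ∀ n : ℕ, b ^ n ∈ LL z := by
    intro n
    have h3 := LL_zpow hz hb (n : ℤ)
    rwa [zpow_natCast] at h3
  have hF : ∀ n, (1 + F n) * z ∈ Om g := by
    intro n
    have h3 := Pool.H31.IS.conj_mem hg (hE n) (hpow (N n))
    have h4 : F n = Matrix.of fun k l => (b ^ N n) k / (b ^ N n) l * E n k l := by
      ext k l
      rw [Matrix.of_apply, hFd, Pi.pow_apply, Pi.pow_apply, div_pow]
    rw [h4]
    exact h3
  have hr0 : ∀ k l, 0 < b k / b l := fun k l => div_pos (hpos k) (hpos l)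
  have hsmall : ∀ n k l, b k ≤ b l → |F n k l| ≤ |E n k l| := by
    intro n k l hkl
    rw [hFd, abs_mul, abs_of_pos (pow_pos (hr0 k l) _)]
    exact mul_le_of_le_one_left (abs_nonneg _)
      (pow_le_one₀ (hr0 k l).le ((div_le_one (hpos l)).2 hkl))
  have hbig : ∀ n k l, b l < b k → |F n k l| ≤ b k / b l := by
    intro n k l hkl
    rw [hFd, abs_mul, abs_of_pos (pow_pos (hr0 k l) _)]
    have hr : 1 < b k / b l := (one_lt_div (hpos l)).2 hkl
    rcases Nat.eq_zero_or_pos (N n) with h3 | h3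
    · rw [h3, pow_zero, one_mul]
      exact (h1 n k l).le.trans hr.le
    · have h4 := hN2 n (N n - 1) (by omega) k l hkl
      have h5 : (b k / b l) ^ N n = (b k / b l) ^ (N n - 1) * (b k / b l) := by
        rw [← pow_succ]
        congr 1
        omega
      rw [h5]
      calc (b k / b l) ^ (N n - 1) * (b k / b l) * |E n k l|
          = |E n k l| * (b k / b l) ^ (N n - 1) * (b k / b l) := by ring
        _ ≤ 1 * (b k / b l) := mul_le_mul_of_nonneg_right h4.le (hr0 k l).le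
        _ = b k / b l := one_mul _
  have hsum : ∀ k l, b k / b l ≤ ∑ i, ∑ j, b i / b j := by
    intro k l
    refine (Finset.single_le_sum (f := fun j => b k / b j) (fun j _ => (hr0 k j).le)
      (Finset.mem_univ l)).trans ?_
    exact Finset.single_le_sum (f := fun i => ∑ j, b i / b j)
      (fun i _ => Finset.sum_nonneg fun j _ => (hr0 i j).le) (Finset.mem_univ k)
  have hbd : ∀ n k l, |F n k l| ≤ 1 + ∑ i, ∑ j, b i / b j := by
    intro n k l
    have h0 : 0 ≤ ∑ i, ∑ j, b i / b j :=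
      Finset.sum_nonneg fun i _ => Finset.sum_nonneg fun j _ => (hr0 i j).le
    rcases le_or_gt (b k) (b l) with h3 | h3
    · linarith [hsmall n k l h3, h1 n k l]
    · linarith [hbig n k l h3, hsum k l]
  obtain ⟨v, φ, hφ, hv⟩ := Pool.H31.IS.exists_subseq F _ hbd
  have hv0 : ∀ k l, b k ≤ b l → v k l = 0 := by
    intro k l hkl
    refine tendsto_nhds_unique (Pool.H31.IS.entry_tendsto hv k l) ?_
    apply squeeze_zero_norm (a := fun n => |E (φ n) k l|)
    · intro n
      rw [Real.norm_eq_abs]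
      exact hsmall (φ n) k l hkl
    · have h3 := (Pool.H31.IS.entry_tendsto (hlim.comp hφ.tendsto_atTop) k l).abs
      rw [Matrix.zero_apply, abs_zero] at h3
      exact h3
  refine ⟨v, ?_, ?_, Pool.H31.IS.lim_mem hg hv fun n => hF (φ n)⟩
  · intro h0
    have h3 : Tendsto (fun n => ∑ i, ∑ j, |F (φ n) i j|) atTop (𝓝 (∑ i, ∑ j, |v i j|)) :=
      tendsto_finsetSum _ fun i _ => tendsto_finsetSum _ fun j _ =>
        (Pool.H31.IS.entry_tendsto hv i j).abs
    have h4 : ∀ n, 1 ≤ ∑ i, ∑ j, |F (φ n) i j| := by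
      intro n
      obtain ⟨k, l, -, h5⟩ := hN1 (φ n)
      have h6 : |F (φ n) k l| ≤ ∑ i, ∑ j, |F (φ n) i j| := by
        refine (Finset.single_le_sum (f := fun j => |F (φ n) k j|) (fun j _ => abs_nonneg _)
          (Finset.mem_univ l)).trans ?_
        exact Finset.single_le_sum (f := fun i => ∑ j, |F (φ n) i j|)
          (fun i _ => Finset.sum_nonneg fun j _ => abs_nonneg _) (Finset.mem_univ k)
      refine le_trans ?_ h6
      rw [hFd, abs_mul, abs_of_pos (pow_pos (hr0 k l) _), mul_comm]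
      exact h5
    have h5 : 1 ≤ ∑ i, ∑ j, |v i j| := ge_of_tendsto h3 (Eventually.of_forall h4)
    rw [h0] at h5
    simp only [Matrix.zero_apply, abs_zero, Finset.sum_const_zero] at h5
    linarith
  · intro k l hkl
    by_contra hcon
    push Not at hcon
    exact hkl (hv0 k l hcon)

theorem magnify_b {g : Matrix (Fin d) (Fin d) ℝ} (hg : g.det ≠ 0)
    {z : Matrix (Fin d) (Fin d) ℝ} (hz : z ∈ Om g) {b : Fin d → ℝ} (hb : b ∈ LL z)
    {y : ℕ → Matrix (Fin d) (Fin d) ℝ} (hy : ∀ n, y n ∈ Om g) (hlim : Tendsto y atTop (𝓝 z))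
    (hno : ∀ n, diagonal b ∉ Aut (y n)) :
    ∃ b' ∈ LL z, (∀ i j, b' i = b' j ↔ b i = b j) ∧ ∃ v : Matrix (Fin d) (Fin d) ℝ, v ≠ 0 ∧
      (∀ k l, v k l ≠ 0 → b' l < b' k) ∧ (1 + v) * z ∈ Om g := by
  classical
  have hzd : z.det ≠ 0 := Om_det_ne hg hz
  have hzu : IsUnit z.det := isUnit_iff_ne_zero.2 hzd
  obtain ⟨E, hEd⟩ : ∃ E : ℕ → Matrix (Fin d) (Fin d) ℝ, ∀ n, E n = y n * z⁻¹ - 1 :=
    ⟨fun n => y n * z⁻¹ - 1, fun n => rfl⟩
  have hyE : ∀ n, (1 + E n) * z = y n := by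
    intro n
    rw [hEd, add_sub_cancel, Matrix.mul_assoc, Matrix.nonsing_inv_mul z hzu, Matrix.mul_one]
  have hElim : Tendsto E atTop (𝓝 0) := by
    have h1 : Tendsto (fun n => y n * z⁻¹ - 1) atTop (𝓝 (z * z⁻¹ - 1)) :=
      (hlim.mul_const z⁻¹).sub_const 1
    rw [Matrix.mul_nonsing_inv z hzu, sub_self] at h1
    exact h1.congr fun n => (hEd n).symm
  have hne : ∀ n, ∃ k l, b k ≠ b l ∧ E n k l ≠ 0 := by
    intro n
    by_contra hcon
    push Not at hcon
    apply hno n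
    obtain ⟨U, hU⟩ := hb.2
    refine ⟨U, ?_⟩
    have hcomm : diagonal b * (1 + E n) = (1 + E n) * diagonal b := by
      ext k l
      rw [Matrix.diagonal_mul, Matrix.mul_diagonal, Matrix.add_apply]
      by_cases hkl : b k = b l
      · rw [hkl, mul_comm]
      · have h1 := hcon k l hkl
        have h2 : k ≠ l := fun h => hkl (h ▸ rfl)
        rw [h1, Matrix.one_apply_ne h2, add_zero, mul_zero, zero_mul]
    rw [← hyE n, ← Matrix.mul_assoc, hcomm, Matrix.mul_assoc, hU, ← Matrix.mul_assoc]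
  have hsm : ∀ᶠ n in atTop, ∀ k l, |E n k l| < 1 := by
    refine eventually_all.2 fun k => eventually_all.2 fun l => ?_
    have h1 := (Pool.H31.IS.entry_tendsto hElim k l).abs
    rw [Matrix.zero_apply, abs_zero] at h1
    exact h1.eventually_lt_const one_pos
  have hfr : (∃ᶠ n in atTop, ∃ k l, b l < b k ∧ E n k l ≠ 0) ∨
      (∃ᶠ n in atTop, ∃ k l, b k < b l ∧ E n k l ≠ 0) := by
    rw [← frequently_or_distrib]
    refine Frequently.of_forall fun n => ?_
    obtain ⟨k, l, h1, h2⟩ := hne n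
    rcases lt_or_gt_of_ne h1 with h3 | h3
    · exact Or.inr ⟨k, l, h3, h2⟩
    · exact Or.inl ⟨k, l, h3, h2⟩
  rcases hfr with hfr | hfr
  · obtain ⟨φ, hφ, h1⟩ := extraction_of_frequently_atTop (hfr.and_eventually hsm)
    obtain ⟨v, hv1, hv2, hv3⟩ := core hg hzd hb (E := fun n => E (φ n))
      (fun n => by rw [hyE]; exact hy _) (hElim.comp hφ.tendsto_atTop)
      (fun n => (h1 n).2) (fun n => (h1 n).1)
    exact ⟨b, hb, fun i j => Iff.rfl, v, hv1, hv2, hv3⟩
  · obtain ⟨φ, hφ, h1⟩ := extraction_of_frequently_atTop (hfr.and_eventually hsm)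
    have hpos : ∀ i, 0 < b i := hb.1.1
    obtain ⟨v, hv1, hv2, hv3⟩ := core hg hzd (LL_inv hzd hb) (E := fun n => E (φ n))
      (fun n => by rw [hyE]; exact hy _) (hElim.comp hφ.tendsto_atTop)
      (fun n => (h1 n).2) (fun n => by
        obtain ⟨k, l, h2, h3⟩ := (h1 n).1
        refine ⟨k, l, ?_, h3⟩
        rw [Pi.inv_apply, Pi.inv_apply]
        exact (inv_lt_inv₀ (hpos l) (hpos k)).2 h2)
    refine ⟨b⁻¹, LL_inv hzd hb, fun i j => ?_, v, hv1, hv2, hv3⟩
    rw [Pi.inv_apply, Pi.inv_apply]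
    exact inv_inj

end Pool.Agent.H46.IS
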